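import Mathlib
import Pool.Agent.Helper226.LociPts

set_option autoImplicit false

open scoped TensorProduct
open Polynomial

universe u

namespace Pool.Agent.H391R3

open Pool.Agent.Helper226

variable {k : Type u} [Field k] {B : Type u} [CommRing B] [Algebra k B] {d : ℕ}
variable {R : Type u} [CommRing R] [Algebra k R] {R' : Type u} [CommRing R'] [Algebra k R']

/-- the matrix of the multiplication by `z` in the basis `b` -/
noncomputable def mm {b : Fin d → B} (c : Chart k b R) (z : R ⊗[k] B) : Matrix (Fin d) (Fin d) R :=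
  Matrix.of fun i j => c.L ((1 ⊗ₜ[k] b i) * z) j

lemma mm_apply {b : Fin d → B} (c : Chart k b R) (z : R ⊗[k] B) (i j : Fin d) :
    mm c z i j = c.L ((1 ⊗ₜ[k] b i) * z) j := rfl

lemma mm_tmul_one {b : Fin d → B} (c : Chart k b R) (g : B) (i j : Fin d) :
    mm c (1 ⊗ₜ[k] g) i j = c.q (b i * g) j := by
  rw [mm_apply, Algebra.TensorProduct.tmul_mul_tmul, one_mul, Chart.L_tmul, one_smul]

lemma mm_mul {b : Fin d → B} (c : Chart k b R) (z w : R ⊗[k] B) :
    mm c (z * w) = mm c z * mm c w := by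
  ext i j
  rw [Matrix.mul_apply, mm_apply, ← mul_assoc, Chart.L_mul, Finset.sum_apply]
  rfl

lemma mm_one {b : Fin d → B} (c : Chart k b R) : mm c (1 : R ⊗[k] B) = 1 := by
  ext i j
  rw [mm_apply, mul_one, Chart.L_tmul, one_smul, c.q_b, Matrix.one_apply, Pi.single_apply]
  by_cases h : i = j
  · simp [h]
  · simp [h, Ne.symm h]

/-- the matrix representation of `R ⊗ B` -/
noncomputable def mmHom {b : Fin d → B} (c : Chart k b R) :
    (R ⊗[k] B) →ₐ[R] Matrix (Fin d) (Fin d) R where
  toFun := mm c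
  map_one' := mm_one c
  map_mul' := mm_mul c
  map_zero' := by
    ext i j
    simp [mm_apply]
  map_add' x y := by
    ext i j
    simp [mm_apply, mul_add]
  commutes' r := by
    ext i j
    rw [mm_apply, Algebra.algebraMap_eq_smul_one, mul_smul_comm, mul_one, map_smul, Chart.L_tmul,
      one_smul, c.q_b, Matrix.algebraMap_matrix_apply, Pi.smul_apply, Pi.single_apply]
    by_cases h : i = j
    · simp [h]
    · simp [h, Ne.symm h]

@[simp] lemma mmHom_apply {b : Fin d → B} (c : Chart k b R) (z : R ⊗[k] B) :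
    mmHom c z = mm c z := rfl

/-- the coordinate vector of a product -/
lemma vecMul_mm {b : Fin d → B} (c : Chart k b R) (z w : R ⊗[k] B) :
    Matrix.vecMul (c.L z) (mm c w) = c.L (z * w) := by
  ext j
  rw [Chart.L_mul, Finset.sum_apply]
  rfl

lemma mm_eq_zero_iff {b : Fin d → B} (c : Chart k b R) (z : R ⊗[k] B) :
    mm c z = 0 ↔ z ∈ c.ideal := by
  constructor
  · intro h
    have := vecMul_mm c 1 z
    rw [h, Matrix.vecMul_zero, one_mul] at this
    exact this.symm
  · intro h
    ext i j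
    rw [mm_apply]
    have : (1 ⊗ₜ[k] b i) * z ∈ c.ideal := Ideal.mul_mem_left _ _ h
    rw [Chart.mem_ideal] at this
    rw [this]
    rfl

lemma mm_map {b : Fin d → B} (c : Chart k b R) (φ : R →ₐ[k] R') (z : R ⊗[k] B) :
    mm (c.map φ) (bc B φ z) = (mm c z).map φ := by
  ext i j
  rw [Matrix.map_apply, mm_apply, mm_apply, ← Chart.map_L, map_mul (bc B φ)]
  simp

/-- the matrix of the multiplication by `g` -/
noncomputable def mg {b : Fin d → B} (c : Chart k b R) (g : B) : Matrix (Fin d) (Fin d) R :=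
  mm c (1 ⊗ₜ[k] g)

lemma mg_apply {b : Fin d → B} (c : Chart k b R) (g : B) (i j : Fin d) :
    mg c g i j = c.q (b i * g) j := mm_tmul_one c g i j

lemma mg_map {b : Fin d → B} (c : Chart k b R) (φ : R →ₐ[k] R') (g : B) :
    mg (c.map φ) g = (mg c g).map φ := by
  unfold mg
  rw [← mm_map]
  simp

/-- if the ideal is contained in a maximal ideal containing `g`, then multiplication by `g` is
singular -/
lemma det_eq_zero_of_mem {b : Fin d → B} (c : Chart k b k) (m : Ideal B) (hm : m ≠ ⊤)
    (hc : c.ker ≤ m) (g : B) (hg : g ∈ m) : (mg c g).det = 0 := by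
  by_contra h
  have hu : IsUnit (mg c g).det := isUnit_iff_ne_zero.2 h
  have h1 : Matrix.vecMul (Matrix.vecMul (c.q 1) (mg c g)⁻¹) (mg c g) = c.q 1 := by
    rw [Matrix.vecMul_vecMul, Matrix.nonsing_inv_mul _ hu, Matrix.vecMul_one]
  set v := Matrix.vecMul (c.q 1) (mg c g)⁻¹ with hv
  have h2 : c.q ((∑ i, v i • b i) * g) = c.q 1 := by
    rw [← h1]
    ext j
    rw [Finset.sum_mul, map_sum, Finset.sum_apply, Matrix.vecMul, dotProduct]
    refine Finset.sum_congr rfl fun i _ => ?_
    rw [smul_mul_assoc, map_smul, Pi.smul_apply, smul_eq_mul, mg_apply]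
  have h3 : (∑ i, v i • b i) * g - 1 ∈ m := by
    apply hc
    rw [Chart.mem_ker, map_sub, h2, sub_self]
  apply hm
  rw [Ideal.eq_top_iff_one]
  have h4 : (∑ i, v i • b i) * g ∈ m := Ideal.mul_mem_left _ _ hg
  have := Ideal.sub_mem _ h4 h3
  simpa using this

end Pool.Agent.H391R3
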