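import Mathlib
import Pool.Agent.H391R3.E1

set_option autoImplicit false

open scoped TensorProduct
open Polynomial

universe u

namespace Pool.Agent.H391R3

open Pool.Agent.Helper226

variable {k : Type u} [Field k] {B : Type u} [CommRing B] [Algebra k B] {d : ℕ}
variable {K : Type u} [Field K] [Algebra k K]

/-- every finite quotient of `K ⊗ B` has a basis coming from `B` -/
lemma exists_chart_of_ideal (I : Ideal (K ⊗[k] B)) (hfin : Module.Finite K ((K ⊗[k] B) ⧸ I)) :
    ∃ (b : Fin (Module.finrank K ((K ⊗[k] B) ⧸ I)) → B) (c : Chart k b K), c.ideal = I := by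
  have hspan := span_range_v (k := k) (B := B) I
  have hb := Module.Basis.ofSpan_subset hspan.ge
  let bs0 := Module.Basis.ofSpan hspan.ge
  have hfin' := Module.Finite.finite_basis bs0
  have hft := Fintype.ofFinite ((linearIndepOn_empty K id).extend
    (Set.empty_subset (Set.range fun x : B => Ideal.Quotient.mk I ((1 : K) ⊗ₜ[k] x))))
  let e := Fintype.equivFinOfCardEq (Module.finrank_eq_card_basis bs0).symm
  let bs := bs0.reindex e
  have hbs : ∀ i, ∃ x : B, Ideal.Quotient.mk I ((1 : K) ⊗ₜ[k] x) = bs i := by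
    intro i
    have : bs i ∈ Set.range bs0 := by
      simp only [bs, Module.Basis.reindex_apply]
      exact ⟨_, rfl⟩
    exact hb this
  choose b hb' using hbs
  refine ⟨b, isBas_of_bijective ?_⟩
  have : gen I b = bs.equivFun.symm.toLinearMap := by
    apply LinearMap.pi_ext'
    intro i
    ext
    simp [gen, Chart.expand, Module.Basis.equivFun_symm_apply, ← hb', Pi.single_apply]
  rw [this]
  exact bs.equivFun.symm.bijective

lemma eval_eq_zero_of_isRoot {n : Type} [Fintype n] [DecidableEq n] (M : Matrix n n K)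
    (t : K) (ht : M.charpoly.IsRoot t) (f : K[X]) (hf : aeval M f = 0) : f.eval t = 0 := by
  have hnt : Nontrivial (Matrix n n K) := by
    by_contra h
    rw [not_nontrivial_iff_subsingleton] at h
    have hn : IsEmpty n := by
      by_contra hne
      rw [not_isEmpty_iff] at hne
      exact not_subsingleton (Matrix n n K) h
    have : M.charpoly = 1 := by
      simp [Matrix.charpoly]
    rw [this] at ht
    simp [IsRoot] at ht
  have h1 : t ∈ spectrum K M := Matrix.mem_spectrum_of_isRoot_charpoly ht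
  have h2 := spectrum.subset_polynomial_aeval M f ⟨t, h1, rfl⟩
  rw [hf, spectrum.zero_eq] at h2
  exact h2

lemma aeval_mm {b : Fin d → B} (c : Chart k b K) (z : K ⊗[k] B) (f : K[X]) :
    mm c (aeval z f) = aeval (mm c z) f := by
  rw [← mmHom_apply, ← mmHom_apply, ← Polynomial.aeval_algHom_apply]

/-- two different eigenvalues give a decomposition -/
lemma exists_split {b : Fin d → B} (c : Chart k b K) (z : K ⊗[k] B) (s t : K) (hst : s ≠ t)
    (hs : (mm c z).charpoly.IsRoot s) (ht : (mm c z).charpoly.IsRoot t) :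
    ∃ (d1 d2 : ℕ) (b1 : Fin d1 → B) (b2 : Fin d2 → B) (c1 : Chart k b1 K) (c2 : Chart k b2 K),
      1 ≤ d1 ∧ 1 ≤ d2 ∧ d1 + d2 = d ∧ c1.ideal ⊓ c2.ideal = c.ideal := by
  set p := (mm c z).charpoly with hp
  have hp0 : p ≠ 0 := (Matrix.charpoly_monic _).ne_zero
  obtain ⟨p2, hp2, hnd⟩ := exists_eq_pow_rootMultiplicity_mul_and_not_dvd p hp0 s
  set m := rootMultiplicity s p
  set q1 : K[X] := (X - C s) ^ m with hq1
  have hcop : IsCoprime q1 p2 := by
    rw [hq1]
    apply IsCoprime.pow_left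
    exact (Irreducible.coprime_iff_not_dvd (irreducible_X_sub_C s)).2 hnd
  set I1 := c.ideal ⊔ Ideal.span {aeval z q1} with hI1
  set I2 := c.ideal ⊔ Ideal.span {aeval z p2} with hI2
  have hcop' : IsCoprime I1 I2 := by
    rw [Ideal.isCoprime_iff_exists]
    obtain ⟨u, v, huv⟩ := hcop
    refine ⟨aeval z (u * q1), ?_, aeval z (v * p2), ?_, ?_⟩
    · rw [map_mul]
      exact Ideal.mem_sup_right (Ideal.mul_mem_left _ _ (Ideal.mem_span_singleton_self _))
    · rw [map_mul]
      exact Ideal.mem_sup_right (Ideal.mul_mem_left _ _ (Ideal.mem_span_singleton_self _))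
    · rw [← map_add, huv, map_one]
  have hprod : aeval z q1 * aeval z p2 ∈ c.ideal := by
    rw [← map_mul, ← hp2, ← mm_eq_zero_iff, aeval_mm, hp]
    exact Matrix.aeval_self_charpoly _
  have hinf : I1 ⊓ I2 = c.ideal := by
    apply le_antisymm
    · rw [← Ideal.mul_eq_inf_of_isCoprime hcop', hI1, hI2, Ideal.sup_mul, Ideal.mul_sup,
        Ideal.mul_sup, Ideal.span_singleton_mul_span_singleton]
      refine sup_le (sup_le Ideal.mul_le_left Ideal.mul_le_left) (sup_le Ideal.mul_le_right ?_)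
      rw [Ideal.span_singleton_le_iff_mem]
      exact hprod
    · exact le_inf le_sup_left le_sup_left
  have hI1t : I1 ≠ ⊤ := by
    intro h
    have h2 : I2 = c.ideal := by rw [← hinf, h, top_inf_eq]
    have h3 : aeval z p2 ∈ c.ideal := by
      rw [← h2]
      exact Ideal.mem_sup_right (Ideal.mem_span_singleton_self _)
    rw [← mm_eq_zero_iff, aeval_mm] at h3
    have h4 := eval_eq_zero_of_isRoot _ s hs _ h3
    exact hnd (dvd_iff_isRoot.2 h4)
  have hI2t : I2 ≠ ⊤ := by
    intro h
    have h2 : I1 = c.ideal := by rw [← hinf, h, inf_top_eq]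
    have h3 : aeval z q1 ∈ c.ideal := by
      rw [← h2]
      exact Ideal.mem_sup_right (Ideal.mem_span_singleton_self _)
    rw [← mm_eq_zero_iff, aeval_mm] at h3
    have h4 := eval_eq_zero_of_isRoot _ t ht _ h3
    rw [hq1, eval_pow, eval_sub, eval_X, eval_C] at h4
    have h5 := eq_zero_of_pow_eq_zero h4
    exact hst (sub_eq_zero.1 h5).symm
  -- dimensions
  let g : (Fin d → K) ≃ₗ[K] ((K ⊗[k] B) ⧸ c.ideal) := LinearEquiv.ofBijective _ (gen_bijective ⟨c, rfl⟩)
  have hfin : Module.Finite K ((K ⊗[k] B) ⧸ c.ideal) := Module.Finite.equiv g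
  have hd : Module.finrank K ((K ⊗[k] B) ⧸ c.ideal) = d := by
    rw [← g.finrank_eq]
    simp
  have hle1 : c.ideal ≤ I1 := le_sup_left
  have hle2 : c.ideal ≤ I2 := le_sup_left
  have hf1 : Module.Finite K ((K ⊗[k] B) ⧸ I1) :=
    Module.Finite.of_surjective (Ideal.Quotient.factorₐ K hle1).toLinearMap
      (Ideal.Quotient.factor_surjective hle1)
  have hf2 : Module.Finite K ((K ⊗[k] B) ⧸ I2) :=
    Module.Finite.of_surjective (Ideal.Quotient.factorₐ K hle2).toLinearMap
      (Ideal.Quotient.factor_surjective hle2)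
  have hsum : Module.finrank K ((K ⊗[k] B) ⧸ I1) + Module.finrank K ((K ⊗[k] B) ⧸ I2) = d := by
    rw [← Module.finrank_prod, ← hd]
    let φ : ((K ⊗[k] B) ⧸ c.ideal) →ₗ[K] ((K ⊗[k] B) ⧸ I1) × ((K ⊗[k] B) ⧸ I2) :=
      (Ideal.Quotient.factorₐ K hle1).toLinearMap.prod (Ideal.Quotient.factorₐ K hle2).toLinearMap
    have hφ : Function.Bijective φ := by
      have hb := (Ideal.quotientInfEquivQuotientProd I1 I2 hcop').bijective
      constructor
      · rw [← LinearMap.ker_eq_bot, LinearMap.ker_eq_bot']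
        intro y hy
        obtain ⟨y, rfl⟩ := Ideal.Quotient.mk_surjective y
        have hy1 : Ideal.Quotient.mk I1 y = 0 := congrArg Prod.fst hy
        have hy2 : Ideal.Quotient.mk I2 y = 0 := congrArg Prod.snd hy
        rw [Ideal.Quotient.eq_zero_iff_mem] at hy1 hy2 ⊢
        rw [← hinf]
        exact ⟨hy1, hy2⟩
      · rintro y
        obtain ⟨x, hx⟩ := hb.2 y
        obtain ⟨x, rfl⟩ := Ideal.Quotient.mk_surjective x
        refine ⟨Ideal.Quotient.mk _ x, ?_⟩
        rw [← hx]
        rfl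
    exact (LinearEquiv.ofBijective φ hφ).finrank_eq.symm
  obtain ⟨b1, c1, hc1⟩ := exists_chart_of_ideal I1 hf1
  obtain ⟨b2, c2, hc2⟩ := exists_chart_of_ideal I2 hf2
  have hn1 : Nontrivial ((K ⊗[k] B) ⧸ I1) := Ideal.Quotient.nontrivial_iff.2 hI1t
  have hn2 : Nontrivial ((K ⊗[k] B) ⧸ I2) := Ideal.Quotient.nontrivial_iff.2 hI2t
  exact ⟨_, _, b1, b2, c1, c2, Module.finrank_pos, Module.finrank_pos, hsum, by rw [hc1, hc2, hinf]⟩

end Pool.Agent.H391R3
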