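import Mathlib
import Pool.Agent.H391R3.E2

set_option autoImplicit false

open scoped TensorProduct
open Polynomial

universe u

namespace Pool.Agent.H391R3

open Pool.Agent.Helper226

variable {k : Type u} [Field k] {B : Type u} [CommRing B] [Algebra k B] {d : ℕ}
variable {K : Type u} [Field K] [Algebra k K]

/-- the coordinates of a chart datum -/
def coef {b : Fin d → B} (c : Chart k b K) : Set K := {a | ∃ x j, c.q x j = a}

/-- the transcendence degree of the field of definition of a chart datum -/
noncomputable def rk {b : Fin d → B} (c : Chart k b K) : ℕ∞ :=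
  (AlgebraicIndependent.matroid k K).eRk (coef c)

lemma adjoin_subset_closure (S : Set K) :
    (IntermediateField.adjoin k S : Set K) ⊆ (AlgebraicIndependent.matroid k K).closure S := by
  rw [AlgebraicIndependent.matroid_closure_eq]
  intro x hx
  rw [SetLike.mem_coe, Subalgebra.mem_algebraicClosure]
  rw [SetLike.mem_coe] at hx
  induction hx using IntermediateField.adjoin_induction with
  | mem x hx =>
    exact isAlgebraic_algebraMap (⟨x, Algebra.subset_adjoin hx⟩ : Algebra.adjoin k S)
  | algebraMap x =>
    exact isAlgebraic_algebraMap (⟨algebraMap k K x, Subalgebra.algebraMap_mem _ x⟩ :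
      Algebra.adjoin k S)
  | add x y _ _ hx hy => exact hx.add hy
  | inv x _ hx => exact hx.inv
  | mul x y _ _ hx hy => exact hx.mul hy

lemma q_eq_sum {b : Fin d → B} (c : Chart k b K) {d' : ℕ} {b' : Fin d' → B} (c' : Chart k b' K)
    (h : c.ideal ≤ c'.ideal) (x : B) (j : Fin d') :
    c'.q x j = ∑ i, c.q x i * c'.q (b i) j := by
  have h1 := h (c.sub_expand_mem (1 ⊗ₜ x))
  rw [Chart.mem_ideal, map_sub, Chart.expand_apply, map_sum, sub_eq_zero] at h1
  have h2 := congrFun h1 j
  simpa using h2

/-- the coordinates of the intersection of two coprime ideals lie in the field generated by the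
coordinates of the ideals -/
lemma coef_subset {b : Fin d → B} (c : Chart k b K) {d1 d2 : ℕ} {b1 : Fin d1 → B} {b2 : Fin d2 → B}
    (c1 : Chart k b1 K) (c2 : Chart k b2 K) (hd : d1 + d2 = d)
    (h : c1.ideal ⊓ c2.ideal = c.ideal) :
    coef c ⊆ (IntermediateField.adjoin k (coef c1 ∪ coef c2) : Set K) := by
  set F := IntermediateField.adjoin k (coef c1 ∪ coef c2) with hF
  have hm1 : ∀ x j, c1.q x j ∈ F := fun x j =>
    IntermediateField.subset_adjoin k _ (Or.inl ⟨x, j, rfl⟩)
  have hm2 : ∀ x j, c2.q x j ∈ F := fun x j =>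
    IntermediateField.subset_adjoin k _ (Or.inr ⟨x, j, rfl⟩)
  let e : Fin d ≃ Fin d1 ⊕ Fin d2 := (Fintype.equivOfCardEq (by simp [hd]))
  let w : B → (Fin d → F) := fun x j => Sum.elim (fun l => (⟨c1.q x l, hm1 x l⟩ : F))
    (fun l => (⟨c2.q x l, hm2 x l⟩ : F)) (e j)
  let M : Matrix (Fin d) (Fin d) F := Matrix.of fun i => w (b i)
  have hle1 : c.ideal ≤ c1.ideal := by rw [← h]; exact inf_le_left
  have hle2 : c.ideal ≤ c2.ideal := by rw [← h]; exact inf_le_right
  have hrel : ∀ x, Matrix.vecMul (c.q x) (M.map (algebraMap F K)) = fun j => (algebraMap F K) (w x j) := by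
    intro x
    ext j
    rw [Matrix.vecMul, dotProduct]
    simp only [Matrix.map_apply, M, Matrix.of_apply, w]
    rcases e j with l | l
    · simp only [Sum.elim_inl, IntermediateField.algebraMap_apply]
      exact (q_eq_sum c c1 hle1 x l).symm
    · simp only [Sum.elim_inr, IntermediateField.algebraMap_apply]
      exact (q_eq_sum c c2 hle2 x l).symm
  have hdetK : (M.map (algebraMap F K)).det ≠ 0 := by
    intro h0
    obtain ⟨v, hv, hv0⟩ := Matrix.exists_vecMul_eq_zero_iff.2 h0
    apply hv
    have hmem : Chart.expand (k := k) K b v ∈ c.ideal := by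
      rw [← h]
      refine ⟨?_, ?_⟩
      · change Chart.expand (k := k) K b v ∈ c1.ideal
        rw [Chart.mem_ideal, Chart.expand_apply, map_sum]
        ext l
        have := congrFun hv0 (e.symm (Sum.inl l))
        rw [Matrix.vecMul, dotProduct] at this
        simp only [Matrix.map_apply, M, Matrix.of_apply, w, Equiv.apply_symm_apply,
          Sum.elim_inl, IntermediateField.algebraMap_apply] at this
        simpa using this
      · change Chart.expand (k := k) K b v ∈ c2.ideal
        rw [Chart.mem_ideal, Chart.expand_apply, map_sum]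
        ext l
        have := congrFun hv0 (e.symm (Sum.inr l))
        rw [Matrix.vecMul, dotProduct] at this
        simp only [Matrix.map_apply, M, Matrix.of_apply, w, Equiv.apply_symm_apply,
          Sum.elim_inr, IntermediateField.algebraMap_apply] at this
        simpa using this
    rw [Chart.mem_ideal, Chart.L_expand] at hmem
    exact hmem
  have hdet : M.det ≠ 0 := by
    intro h0
    apply hdetK
    rw [← RingHom.mapMatrix_apply, ← RingHom.map_det, h0, map_zero]
  have hu : IsUnit M.det := isUnit_iff_ne_zero.2 hdet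
  rintro _ ⟨x, j, rfl⟩
  let v : Fin d → F := Matrix.vecMul (w x) M⁻¹
  have hv : Matrix.vecMul v M = w x := by
    change Matrix.vecMul (Matrix.vecMul (w x) M⁻¹) M = w x
    rw [Matrix.vecMul_vecMul, Matrix.nonsing_inv_mul _ hu, Matrix.vecMul_one]
  have hv2 : Matrix.vecMul (fun j => algebraMap F K (v j)) (M.map (algebraMap F K)) =
      fun j => (algebraMap F K) (w x j) := by
    ext j
    rw [← hv]
    exact (RingHom.map_vecMul (algebraMap F K) M v j).symm
  have hv3 : (fun j => algebraMap F K (v j)) = c.q x := by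
    by_contra hne
    apply hdetK
    rw [← Matrix.exists_vecMul_eq_zero_iff]
    refine ⟨(fun j => algebraMap F K (v j)) - c.q x, sub_ne_zero.2 hne, ?_⟩
    rw [Matrix.sub_vecMul, hv2, hrel, sub_self]
  rw [← hv3]
  exact (v j).2

lemma rk_le_add {b : Fin d → B} (c : Chart k b K) {d1 d2 : ℕ} {b1 : Fin d1 → B} {b2 : Fin d2 → B}
    (c1 : Chart k b1 K) (c2 : Chart k b2 K) (hd : d1 + d2 = d)
    (h : c1.ideal ⊓ c2.ideal = c.ideal) : rk c ≤ rk c1 + rk c2 := by
  have h1 := (coef_subset c c1 c2 hd h).trans (adjoin_subset_closure _)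
  refine ((AlgebraicIndependent.matroid k K).eRk_mono h1).trans ?_
  rw [Matroid.eRk_closure_eq]
  exact Matroid.eRk_union_le_eRk_add_eRk _ _ _

end Pool.Agent.H391R3
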