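import Mathlib
import Pool.Agent.H391R3.E3

set_option autoImplicit false

open scoped TensorProduct
open Polynomial

universe u

namespace Pool.Agent.H391R3

open Pool.Agent.Helper226

variable {k : Type u} [Field k] {B : Type u} [CommRing B] [Algebra k B] {d : ℕ}

/-- the ranks are bounded in terms of the length -/
lemma exists_bound (k : Type u) [Field k] (B : Type u) [CommRing B] [Algebra k B]
    [hft : Algebra.FiniteType k B] (d : ℕ) :
    ∃ N : ℕ, ∀ (K : Type u) [Field K] [Algebra k K] (b : Fin d → B) (c : Chart k b K),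
      rk c ≤ N := by
  classical
  obtain ⟨s, hs⟩ := hft.out
  refine ⟨d + s.card * (d * d), fun K _ _ b c => ?_⟩
  have h1 : coef c ⊆ (Algebra.adjoin k (c.lift '' genFin (k := k) b s) : Set K) := by
    rintro _ ⟨x, j, rfl⟩
    have h2 := q_mem_adjoin (k := k) b s hs x 1 (fun l => Algebra.subset_adjoin (Or.inl ⟨l, rfl⟩)) j
    rw [one_mul] at h2
    have h3 : c.q x j = c.lift ((univChart k b).q x j) := by
      rw [← Chart.map_q, Chart.map_lift]
    rw [h3, SetLike.mem_coe, ← AlgHom.map_adjoin]
    exact ⟨_, h2, rfl⟩
  have h2 : (Algebra.adjoin k (c.lift '' genFin (k := k) b s) : Set K) ⊆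
      (AlgebraicIndependent.matroid k K).closure (c.lift '' genFin (k := k) b s) := by
    rw [AlgebraicIndependent.matroid_closure_eq]
    intro x hx
    rw [SetLike.mem_coe, Subalgebra.mem_algebraicClosure]
    exact isAlgebraic_algebraMap (⟨x, hx⟩ : Algebra.adjoin k (c.lift '' genFin (k := k) b s))
  have h3 : rk c ≤ (c.lift '' genFin (k := k) b s).encard := by
    refine ((AlgebraicIndependent.matroid k K).eRk_mono (h1.trans h2)).trans ?_
    rw [Matroid.eRk_closure_eq]
    exact Matroid.eRk_le_encard _ _
  refine h3.trans ((Set.encard_image_le _ _).trans ?_)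
  unfold genFin
  refine (Set.encard_union_le _ _).trans ?_
  rw [Nat.cast_add]
  refine add_le_add ?_ ?_
  · rw [← Set.image_univ]
    refine (Set.encard_image_le _ _).trans ?_
    simp
  · refine (Set.encard_image_le _ _).trans ?_
    rw [Set.encard_prod]
    simp

end Pool.Agent.H391R3
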