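import Mathlib
import Pool.Agent.Helper226.QData
import Pool.Agent.H391R3.E4

set_option autoImplicit false

open scoped TensorProduct
open MvPolynomial

universe u

namespace Pool.Agent.H391R3

open Pool.Agent.Helper226

/-- monomials of degree `s` -/
def mT (n s : ℕ) : Finset (Fin n →₀ ℕ) := Finset.finsuppAntidiag Finset.univ s

/-- monomials of degree less than `s` -/
def mL (n s : ℕ) : Finset (Fin n →₀ ℕ) := (Finset.range s).biUnion (mT n)

lemma mem_mT {n s : ℕ} (μ : Fin n →₀ ℕ) : μ ∈ mT n s ↔ μ.degree = s := by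
  unfold mT
  rw [Finset.mem_finsuppAntidiag]
  constructor
  · rintro ⟨h, -⟩
    rw [← h, Finsupp.degree_eq_sum]
  · intro h
    refine ⟨?_, Finset.subset_univ _⟩
    rw [← h, Finsupp.degree_eq_sum]

lemma mem_mL {n s : ℕ} (μ : Fin n →₀ ℕ) : μ ∈ mL n s ↔ μ.degree < s := by
  unfold mL
  simp [mem_mT]

lemma card_mT (n s : ℕ) : (mT n s).card = (n + s - 1).choose s := by
  unfold mT
  rw [Finset.card_finsuppAntidiag_nat_eq_choose]
  simp

lemma card_mT_mono (n s : ℕ) (hn : 1 ≤ n) (i : ℕ) (hi : i ≤ s) :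
    (mT n i).card ≤ (mT n s).card := by
  rw [card_mT, card_mT]
  have h1 : (n + i - 1).choose i = (n + i - 1).choose (n - 1) :=
    (Nat.choose_symm_of_eq_add (by omega))
  have h2 : (n + s - 1).choose s = (n + s - 1).choose (n - 1) :=
    (Nat.choose_symm_of_eq_add (by omega))
  rw [h1, h2]
  exact Nat.choose_le_choose _ (by omega)

lemma card_mL_le (n s : ℕ) (hn : 1 ≤ n) : (mL n s).card ≤ s * (mT n s).card := by
  unfold mL
  refine Finset.card_biUnion_le.trans ?_
  calc ∑ i ∈ Finset.range s, (mT n i).card ≤ ∑ _i ∈ Finset.range s, (mT n s).card :=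
        Finset.sum_le_sum fun i hi => card_mT_mono n s hn i (Finset.mem_range.1 hi).le
    _ = s * (mT n s).card := by simp

lemma card_mT_ge (n s : ℕ) (hn : 3 ≤ n) : (s + 2) * (s + 1) ≤ 2 * (mT n s).card := by
  rw [card_mT]
  have h1 : (s + 2).choose s ≤ (n + s - 1).choose s := Nat.choose_le_choose _ (by omega)
  have h2 : (s + 2).choose s = (s + 2).choose 2 := Nat.choose_symm_of_eq_add (by omega)
  have h3 : (s + 2).choose 2 = (s + 2) * (s + 1) / 2 := by
    rw [Nat.choose_two_right]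
    simp
  have h4 : 2 * ((s + 2) * (s + 1) / 2) = (s + 2) * (s + 1) := by
    apply Nat.mul_div_cancel'
    have := Nat.even_mul_succ_self (s + 1)
    rw [mul_comm]
    exact this.two_dvd
  omega

section fam

variable {k : Type u} [Field k] {n : ℕ} (s : ℕ) (E : Finset (Fin n →₀ ℕ))
variable {R : Type u} [CommRing R] [Algebra k R]

open Classical in
/-- the basis monomials -/
noncomputable def bF : Finset (Fin n →₀ ℕ) := mL n s ∪ E

/-- enumeration of the basis monomials -/
noncomputable def eF (j : Fin (bF s E).card) : Fin n →₀ ℕ := ((bF s E).equivFin.symm j : _)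

open Classical in
/-- the values on monomials -/
noncomputable def wF (a : (Fin n →₀ ℕ) → (Fin n →₀ ℕ) → R) (μ : Fin n →₀ ℕ) :
    Fin (bF s E).card → R :=
  if h : μ ∈ bF s E then Pi.single ((bF s E).equivFin ⟨μ, h⟩) 1
  else if μ.degree = s then fun j => if eF s E j ∈ E then a μ (eF s E j) else 0
  else 0

variable {s E} (hE : E ⊆ mT n s)

lemma mem_bF (μ : Fin n →₀ ℕ) : μ ∈ bF s E ↔ μ.degree < s ∨ μ ∈ E := by
  unfold bF
  rw [Finset.mem_union, mem_mL]

include hE in
lemma degree_le_of_mem (μ : Fin n →₀ ℕ) (h : μ ∈ bF s E) : μ.degree ≤ s := by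
  rcases (mem_bF μ).1 h with h | h
  · exact h.le
  · exact ((mem_mT μ).1 (hE h)).le

include hE in
lemma wF_gt (a : (Fin n →₀ ℕ) → (Fin n →₀ ℕ) → R) (μ : Fin n →₀ ℕ) (h : s < μ.degree) :
    wF s E a μ = 0 := by
  unfold wF
  rw [dif_neg (fun h' => absurd (degree_le_of_mem hE μ h') (by omega)), if_neg (by omega)]

lemma wF_e (a : (Fin n →₀ ℕ) → (Fin n →₀ ℕ) → R) (j : Fin (bF s E).card) :
    wF s E a (eF s E j) = Pi.single j 1 := by
  unfold wF
  have h : eF s E j ∈ bF s E := ((bF s E).equivFin.symm j).2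
  rw [dif_pos h]
  congr 1
  unfold eF
  rw [← Equiv.eq_symm_apply]

lemma exists_eF (μ : Fin n →₀ ℕ) (h : μ ∈ bF s E) : ∃ j, eF s E j = μ := by
  refine ⟨(bF s E).equivFin ⟨μ, h⟩, ?_⟩
  unfold eF
  rw [Equiv.symm_apply_apply]

lemma wF_N (a : (Fin n →₀ ℕ) → (Fin n →₀ ℕ) → R) (μ : Fin n →₀ ℕ) (h : μ ∉ bF s E)
    (hs : μ.degree = s) (j : Fin (bF s E).card) :
    wF s E a μ j = if eF s E j ∈ E then a μ (eF s E j) else 0 := by
  unfold wF
  rw [dif_neg h, if_pos hs]

/-- the chart datum of the family of very compressed algebras -/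
noncomputable def famC (a : (Fin n →₀ ℕ) → (Fin n →₀ ℕ) → R) : Chart k (mb k (eF s E)) R :=
  wChart (eF s E) (wF s E a) (wF_e a) (by
    intro α β
    by_cases h1 : α ∈ bF s E
    · obtain ⟨j, rfl⟩ := exists_eF α h1
      rw [wF_e, QData.sum_single_smul]
    · by_cases h2 : α.degree = s
      · by_cases h3 : β = 0
        · subst h3
          simp only [add_zero, wF_e]
          rw [QData.sum_smul_single]
        · have h4 : 0 < β.degree := by
            rw [Nat.pos_iff_ne_zero]
            intro h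
            exact h3 ((Finsupp.degree_eq_zero_iff β).1 h)
          rw [wF_gt hE a (α + β) (by rw [map_add]; omega)]
          symm
          apply Finset.sum_eq_zero
          intro j _
          rw [wF_N a α h1 h2]
          by_cases h5 : eF s E j ∈ E
          · rw [wF_gt hE a (eF s E j + β) (by
              rw [map_add, (mem_mT _).1 (hE h5)]; omega), smul_zero]
          · rw [if_neg h5, zero_smul]
      · have h3 : s < α.degree := by
          rcases Nat.lt_trichotomy α.degree s with h | h | h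
          · exact absurd ((mem_bF α).2 (Or.inl h)) h1
          · exact absurd h h2
          · exact h
        rw [wF_gt hE a α h3, wF_gt hE a (α + β) (by rw [map_add]; omega)]
        simp)

lemma famC_q (a : (Fin n →₀ ℕ) → (Fin n →₀ ℕ) → R) (μ : Fin n →₀ ℕ) :
    (famC (k := k) hE a).q (monomial μ 1) = wF s E a μ := wChart_q _ _ _ _ _

end fam

/-- the variables of the generic member -/
abbrev Vr {n : ℕ} (s : ℕ) (E : Finset (Fin n →₀ ℕ)) : Type :=
  {μ : Fin n →₀ ℕ // μ ∈ mT n s ∧ μ ∉ E} × {μ : Fin n →₀ ℕ // μ ∈ E}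

instance {n : ℕ} (s : ℕ) (E : Finset (Fin n →₀ ℕ)) :
    Finite {μ : Fin n →₀ ℕ // μ ∈ mT n s ∧ μ ∉ E} :=
  Finite.of_injective (fun x => (⟨x.1, x.2.1⟩ : {μ // μ ∈ mT n s})) (by
    intro x y h
    simp only [Subtype.mk.injEq] at h
    exact Subtype.ext h)

/-- the function field of the family -/
abbrev KF (k : Type u) [Field k] {n : ℕ} (s : ℕ) (E : Finset (Fin n →₀ ℕ)) : Type u :=
  FractionRing (MvPolynomial (ULift.{u} (Vr s E)) k)

open Classical in
/-- the coefficients of the generic member -/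
noncomputable def aF (k : Type u) [Field k] {n : ℕ} (s : ℕ) (E : Finset (Fin n →₀ ℕ))
    (μ ν : Fin n →₀ ℕ) : KF k s E :=
  if h : (μ ∈ mT n s ∧ μ ∉ E) ∧ ν ∈ E then
    algebraMap (MvPolynomial (ULift.{u} (Vr s E)) k) (KF k s E) (X ⟨(⟨μ, h.1⟩, ⟨ν, h.2⟩)⟩) else 0

lemma card_Vr {n : ℕ} (s : ℕ) (E : Finset (Fin n →₀ ℕ)) (hE : E ⊆ mT n s) :
    Nat.card (Vr s E) = ((mT n s).card - E.card) * E.card := by
  classical
  rw [Nat.card_prod]
  congr 1
  · rw [← Finset.card_sdiff_of_subset hE]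
    exact Nat.subtype_card (mT n s \ E) (by simp)
  · simp

lemma rk_famC (k : Type u) [Field k] {n : ℕ} (s : ℕ) (E : Finset (Fin n →₀ ℕ)) (hE : E ⊆ mT n s) :
    ((((mT n s).card - E.card) * E.card : ℕ) : ℕ∞) ≤ rk (famC (k := k) hE (aF k s E)) := by
  classical
  let x : ULift.{u} (Vr s E) → KF k s E := fun v =>
    algebraMap (MvPolynomial (ULift.{u} (Vr s E)) k) (KF k s E) (X v)
  have hx : AlgebraicIndependent k x := by
    have h1 : AlgebraicIndependent k (X : ULift.{u} (Vr s E) → MvPolynomial (ULift.{u} (Vr s E)) k) :=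
      MvPolynomial.algebraicIndependent_X _ _
    exact h1.map' (f := IsScalarTower.toAlgHom k (MvPolynomial (ULift.{u} (Vr s E)) k) (KF k s E))
      (IsFractionRing.injective _ _)
  have hinj : Function.Injective x := hx.injective
  have hsub : Set.range x ⊆ coef (famC (k := k) hE (aF k s E)) := by
    rintro _ ⟨⟨⟨⟨μ, hμ⟩, ⟨ν, hν⟩⟩⟩, rfl⟩
    obtain ⟨j, hj⟩ := exists_eF (s := s) (E := E) ν ((mem_bF ν).2 (Or.inr hν))
    refine ⟨monomial μ 1, j, ?_⟩
    have hμ1 : μ ∉ bF s E := by
      rw [mem_bF]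
      rintro (h | h)
      · rw [(mem_mT μ).1 hμ.1] at h
        omega
      · exact hμ.2 h
    rw [famC_q, wF_N _ μ hμ1 ((mem_mT μ).1 hμ.1), hj, if_pos hν]
    unfold aF
    rw [dif_pos ⟨hμ, hν⟩]
  have hind : (AlgebraicIndependent.matroid k (KF k s E)).Indep (Set.range x) := by
    rw [AlgebraicIndependent.matroid_indep_iff]
    exact hx.to_subtype_range
  have h2 := hind.encard_le_eRk_of_subset hsub
  refine le_trans (le_of_eq ?_) h2
  rw [← Set.image_univ, hinj.encard_image, Set.encard_univ, ENat.card_congr Equiv.ulift,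
    ENat.card_eq_coe_natCard, card_Vr s E hE]

/-- for every `C` there is a chart datum of rank larger than `C * d` -/
lemma exists_large (k : Type u) [Field k] (n : ℕ) (hn : 3 ≤ n) (C : ℕ) :
    ∃ (d : ℕ) (K : Type u) (_ : Field K) (_ : Algebra k K) (b : Fin d → MvPolynomial (Fin n) k)
      (c : Chart k b K), ((C * d : ℕ) : ℕ∞) < rk c := by
  classical
  set s := 8 * C + 1 with hs
  set D := (mT n s).card with hD
  obtain ⟨E, hE, hEc⟩ := Finset.exists_subset_card_eq (s := mT n s) (n := D / 2) (by omega)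
  refine ⟨_, KF k s E, inferInstance, inferInstance, _, famC (k := k) hE (aF k s E), ?_⟩
  refine lt_of_lt_of_le ?_ (rk_famC k s E hE)
  rw [Nat.cast_lt, ← hD, hEc]
  have h1 : (bF s E).card ≤ (s + 1) * D := by
    unfold bF
    refine (Finset.card_union_le _ _).trans ?_
    have := card_mL_le n s (by omega)
    rw [hEc]
    have h2 : D / 2 ≤ D := Nat.div_le_self _ _
    nlinarith
  have h3 := card_mT_ge n s hn
  rw [← hD] at h3
  have h4 : 4 * C * (s + 1) + 2 ≤ D := by nlinarith
  have h5 : C * (bF s E).card ≤ C * ((s + 1) * D) := Nat.mul_le_mul_left _ h1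
  refine lt_of_le_of_lt h5 ?_
  obtain ⟨t, ht⟩ : ∃ t, D = 2 * t ∨ D = 2 * t + 1 := ⟨D / 2, by omega⟩
  have h6 : D / 2 = t := by omega
  rw [h6]
  rcases ht with ht | ht
  · have h7 : D - t = t := by omega
    rw [h7]
    have h8 : 2 * C * (s + 1) + 1 ≤ t := by nlinarith
    rw [ht]
    nlinarith
  · have h7 : D - t = t + 1 := by omega
    rw [h7]
    have h8 : 2 * C * (s + 1) + 1 ≤ t + 1 := by nlinarith
    rw [ht]
    nlinarith

end Pool.Agent.H391R3
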