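import Mathlib
import Pool.Agent.H391R3.E4

set_option autoImplicit false

open scoped TensorProduct
open Polynomial

universe u

namespace Pool.Agent.H391R3

open Pool.Agent.Helper226

variable {k : Type u} [Field k] {B : Type u} [CommRing B] [Algebra k B] {d : ℕ}

/-- a base change along a more injective map has larger rank -/
lemma rk_map_le {A : Type u} [CommRing A] [Algebra k A] {b : Fin d → B} (cA : Chart k b A)
    {K K1 : Type u} [Field K] [Algebra k K] [Field K1] [Algebra k K1] (φ : A →ₐ[k] K1)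
    (ψ : A →ₐ[k] K) (h : RingHom.ker φ ≤ RingHom.ker ψ) :
    rk (cA.map ψ) ≤ rk (cA.map φ) := by
  unfold rk
  rw [Matroid.eRk_le_iff]
  intro I hI hind
  have hI' : ∀ a : I, ∃ x j, (cA.map ψ).q x j = (a : K) := fun a => hI a.2
  choose x j hxj using hI'
  have hind' : AlgebraicIndependent k (fun a : I => (a : K)) := by
    rw [AlgebraicIndependent.matroid_indep_iff] at hind
    exact hind
  -- lift to the quotient
  let ψ' : (A ⧸ RingHom.ker φ) →ₐ[k] K := Ideal.Quotient.liftₐ (RingHom.ker φ) ψ
    (fun a ha => h ha)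
  let φ' : (A ⧸ RingHom.ker φ) →ₐ[k] K1 := Ideal.Quotient.liftₐ (RingHom.ker φ) φ
    (fun a ha => ha)
  have hφ' : Function.Injective φ' := RingHom.kerLift_injective (φ : A →+* K1)
  let v : I → (A ⧸ RingHom.ker φ) := fun a => Ideal.Quotient.mk _ (cA.q (x a) (j a))
  have hv : AlgebraicIndependent k v := by
    apply AlgebraicIndependent.of_comp ψ'
    convert hind' using 1
    funext a
    have h1 : (cA.map ψ).q (x a) (j a) = a := hxj a
    rw [← h1]
    rfl
  have hv2 : AlgebraicIndependent k (φ' ∘ v) := hv.map' hφ'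
  have hsub : Set.range (φ' ∘ v) ⊆ coef (cA.map φ) := by
    rintro _ ⟨a, rfl⟩
    exact ⟨x a, j a, rfl⟩
  have hin2 : (AlgebraicIndependent.matroid k K1).Indep (Set.range (φ' ∘ v)) := by
    rw [AlgebraicIndependent.matroid_indep_iff]
    exact hv2.to_subtype_range
  have h3 := hin2.encard_le_eRk_of_subset hsub
  refine le_trans (le_of_eq ?_) h3
  rw [← Set.image_univ, hv2.injective.encard_image, Set.encard_univ]
  rfl

/-- if the radical of the ideal of a finite quotient is not maximal, there are two comaximal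
maximal ideals over it -/
lemma exists_two_maximal {b : Fin d → B} (c : Chart k b k) (hd : 1 ≤ d)
    (h : ¬ c.ker.radical.IsMaximal) :
    ∃ (m1 m2 : Ideal B) (g : B), m1 ≠ ⊤ ∧ m2 ≠ ⊤ ∧ c.ker ≤ m1 ∧ c.ker ≤ m2 ∧ g ∈ m1 ∧ 1 - g ∈ m2 := by
  have hfin : Module.Finite k (B ⧸ c.ker) := by
    let qq : B →ₗ[k] (Fin d → k) := c.q
    have hk : LinearMap.ker qq = c.ker.restrictScalars k := by
      ext x
      rw [LinearMap.mem_ker, Submodule.restrictScalars_mem, Chart.mem_ker]
    have h1 : Module.Finite k (B ⧸ LinearMap.ker qq) :=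
      Module.Finite.of_injective (qq.ker.liftQ qq le_rfl) (by
        rw [← LinearMap.ker_eq_bot]
        exact Submodule.ker_liftQ_eq_bot _ _ _ le_rfl)
    rw [hk] at h1
    exact h1
  have hne : c.ker ≠ ⊤ := by
    intro ht
    have : b ⟨0, hd⟩ ∈ c.ker := by rw [ht]; trivial
    rw [Chart.mem_ker, c.q_b] at this
    have h2 := congrFun this ⟨0, hd⟩
    simp at h2
  have hprime : ∀ P : Ideal B, P.IsPrime → c.ker ≤ P → P.IsMaximal := by
    intro P hP hle
    have hf : Module.Finite k (B ⧸ P) :=
      Module.Finite.of_surjective (Ideal.Quotient.factorₐ k hle).toLinearMap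
        (Ideal.Quotient.factor_surjective hle)
    have hdom : IsDomain (B ⧸ P) := Ideal.Quotient.isDomain P
    rw [Ideal.Quotient.maximal_ideal_iff_isField_quotient]
    exact isField_of_isIntegral_of_isField' (R := k) (Field.toIsField k)
  obtain ⟨m1, hm1, hle1⟩ := Ideal.exists_le_maximal _ hne
  by_cases hall : ∀ P : Ideal B, P.IsPrime → c.ker ≤ P → P = m1
  · exfalso
    apply h
    have : c.ker.radical = m1 := by
      rw [Ideal.radical_eq_sInf]
      apply le_antisymm
      · exact sInf_le ⟨hle1, hm1.isPrime⟩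
      · apply le_sInf
        rintro P ⟨hP1, hP2⟩
        exact (hall P hP2 hP1).ge
    rw [this]
    exact hm1
  · push Not at hall
    obtain ⟨m2, hm2p, hle2, hne2⟩ := hall
    have hm2 := hprime m2 hm2p hle2
    have hcop := Ideal.IsMaximal.coprime_of_ne hm1 hm2 hne2.symm
    have h1 : (1 : B) ∈ m1 ⊔ m2 := by rw [hcop]; trivial
    obtain ⟨g, hg, g', hg', hgg⟩ := Submodule.mem_sup.1 h1
    refine ⟨m1, m2, g, hm1.ne_top, hm2.ne_top, hle1, hle2, hg, ?_⟩
    rw [← hgg, add_sub_cancel_left]
    exact hg'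

/-- if all elements have a single eigenvalue at a generalisation, then the special ideal is
supported at one point -/
lemma radical_isMaximal {K : Type u} [Field K] [Algebra k K] [IsAlgClosed K] (hd : 1 ≤ d)
    {A : Type u} [CommRing A] [Algebra k A] {b : Fin d → B} (cA : Chart k b A)
    (ψ : A →ₐ[k] K) (χ : A →ₐ[k] k) (h : RingHom.ker ψ ≤ RingHom.ker χ)
    (hone : ∀ (g : B) (s t : K), (mg (cA.map ψ) g).charpoly.IsRoot s →
      (mg (cA.map ψ) g).charpoly.IsRoot t → s = t) :
    (cA.map χ).ker.radical.IsMaximal := by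
  by_contra hcon
  obtain ⟨m1, m2, g, hm1, hm2, hle1, hle2, hg1, hg2⟩ := exists_two_maximal _ hd hcon
  have hD0 : χ (mg cA g).det = 0 := by
    have h1 := det_eq_zero_of_mem _ m1 hm1 hle1 g hg1
    rw [mg_map] at h1
    rw [← h1]
    exact (RingHom.map_det (χ : A →+* k) (mg cA g))
  have hD1 : χ (mg cA (1 - g)).det = 0 := by
    have h1 := det_eq_zero_of_mem _ m2 hm2 hle2 (1 - g) hg2
    rw [mg_map] at h1
    rw [← h1]
    exact (RingHom.map_det (χ : A →+* k) (mg cA (1 - g)))
  -- the single eigenvalue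
  set P := (mg (cA.map ψ) g).charpoly with hP
  have hmonic : P.Monic := Matrix.charpoly_monic _
  have hdeg : P.natDegree = d := by
    rw [hP, Matrix.charpoly_natDegree_eq_dim]
    simp
  obtain ⟨l, hl⟩ := IsAlgClosed.exists_root P (by
    rw [degree_eq_natDegree hmonic.ne_zero, hdeg]
    exact_mod_cast (by omega : d ≠ 0))
  have hsplit : P = (X - C l) ^ d := by
    have h1 := (IsAlgClosed.splits P).eq_prod_roots_of_monic hmonic
    have h2 : P.roots = Multiset.replicate d l := by
      rw [Multiset.eq_replicate]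
      refine ⟨?_, fun t ht => ?_⟩
      · rw [← hdeg]
        exact (IsAlgClosed.splits P).natDegree_eq_card_roots.symm
      · exact hone g t l (isRoot_of_mem_roots ht) hl
    rw [h1, h2]
    simp
  have hev0 : ψ (mg cA g).det = l ^ d := by
    have h1 : ψ (mg cA g).det = (mg (cA.map ψ) g).det := by
      rw [mg_map]
      exact (RingHom.map_det (ψ : A →+* K) (mg cA g))
    rw [h1, Matrix.det_eq_sign_charpoly_coeff, ← hP, coeff_zero_eq_eval_zero, hsplit]
    simp only [eval_pow, eval_sub, eval_X, eval_C, zero_sub, Fintype.card_fin]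
    rw [← mul_pow]
    simp
  have hev1 : ψ (mg cA (1 - g)).det = (1 - l) ^ d := by
    have h1 : ψ (mg cA (1 - g)).det = (mg (cA.map ψ) (1 - g)).det := by
      rw [mg_map]
      exact (RingHom.map_det (ψ : A →+* K) (mg cA (1 - g)))
    have h2 : mg (cA.map ψ) (1 - g) = Matrix.scalar (Fin d) (1 : K) - mg (cA.map ψ) g := by
      unfold mg
      rw [TensorProduct.tmul_sub, ← mmHom_apply, map_sub, mmHom_apply, mmHom_apply]
      congr 1
      have : (1 : K) ⊗ₜ[k] (1 : B) = 1 := rfl
      rw [this, mm_one]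
      simp
    rw [h1, h2, ← Matrix.eval_charpoly, ← hP, hsplit]
    simp
  -- lying over
  let _ : Algebra A K := ψ.toRingHom.toAlgebra
  have halg : ∀ a : A, algebraMap A K a = ψ a := fun _ => rfl
  have hint : IsIntegral A l := by
    refine ⟨(mg cA g).charpoly, Matrix.charpoly_monic _, ?_⟩
    have h1 : (mg cA g).charpoly.map (algebraMap A K) = P := by
      rw [hP, mg_map]
      exact (Matrix.charpoly_map (mg cA g) (algebraMap A K)).symm
    rw [← eval_map, h1]
    exact hl
  let S := integralClosure A K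
  have hmax : (RingHom.ker χ).IsMaximal :=
    RingHom.ker_isMaximal_of_surjective χ (fun a => ⟨algebraMap k A a, χ.commutes a⟩)
  have hker : RingHom.ker (algebraMap A S) ≤ RingHom.ker χ := by
    intro a ha
    apply h
    rw [RingHom.mem_ker] at ha ⊢
    have := congrArg (fun y : S => (y : K)) ha
    exact this
  obtain ⟨Q, hQ, hQc⟩ := Ideal.exists_ideal_over_maximal_of_isIntegral (S := S) (RingHom.ker χ) hker
  let l' : S := ⟨l, hint⟩
  have h0 : l' ^ d ∈ Q := by
    have h1 : (mg cA g).det ∈ Q.comap (algebraMap A S) := by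
      rw [hQc]
      exact hD0
    have h2 : algebraMap A S (mg cA g).det = l' ^ d := by
      apply Subtype.ext
      exact hev0
    rw [← h2]
    exact h1
  have h1' : (1 - l') ^ d ∈ Q := by
    have h1 : (mg cA (1 - g)).det ∈ Q.comap (algebraMap A S) := by
      rw [hQc]
      exact hD1
    have h2 : algebraMap A S (mg cA (1 - g)).det = (1 - l') ^ d := by
      apply Subtype.ext
      exact hev1
    rw [← h2]
    exact h1
  have hQp := hQ.isPrime
  have h3 := hQp.mem_of_pow_mem _ h0
  have h4 := hQp.mem_of_pow_mem _ h1'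
  apply hQ.ne_top
  rw [Ideal.eq_top_iff_one]
  have := Q.add_mem h3 h4
  simpa using this

end Pool.Agent.H391R3
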