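import Mathlib
import Pool.Agent.H391R3.E6

set_option autoImplicit false

open scoped TensorProduct

universe u

namespace Pool.Agent.H391R3

open Pool.Agent.Helper226

variable {k : Type u} [Field k] {B : Type u} [CommRing B] [Algebra k B] {d : ℕ}

lemma le_ringKrullDim (k : Type u) [Field k] (A : Type u) [CommRing A] [IsDomain A]
    [Algebra k A] [Algebra.FiniteType k A] (s : ℕ) (g : MvPolynomial (Fin s) k →ₐ[k] A)
    (ginj : Function.Injective g) (gint : g.IsIntegral) : (s : WithBot ℕ∞) ≤ ringKrullDim A := by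
  let := g.toRingHom.toAlgebra
  have hint : Algebra.IsIntegral (MvPolynomial (Fin s) k) A := ⟨gint⟩
  have hfs : FaithfulSMul (MvPolynomial (Fin s) k) A :=
    (faithfulSMul_iff_algebraMap_injective _ _).2 ginj
  have hN : IsNoetherianRing A := Algebra.FiniteType.isNoetherianRing k A
  obtain ⟨m, hm⟩ := Ideal.exists_maximal A
  let p : Ideal (MvPolynomial (Fin s) k) := m.comap (algebraMap _ A)
  have hp : p.IsMaximal := Ideal.isMaximal_comap_of_isIntegral_of_isMaximal m
  have hlo : m.LiesOver p := ⟨rfl⟩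
  have h1 := Ideal.height_eq_height_add_of_liesOver_of_hasGoingDown p m
  have h2 : p.height ≤ m.height := by
    rw [h1]
    exact le_self_add
  rw [mvPolynomial_height k s p hp] at h2
  have h3 : (m.height : WithBot ℕ∞) ≤ ringKrullDim A :=
    Ideal.height_le_ringKrullDim_of_ne_top hm.ne_top
  refine le_trans ?_ h3
  exact_mod_cast h2

/-- the rank is at most the dimension of the closure of the point -/
lemma rk_le_dim {A : Type u} [CommRing A] [Algebra k A] [Algebra.FiniteType k A]
    {b : Fin d → B} (cA : Chart k b A) {K : Type u} [Field K] [Algebra k K] (φ : A →ₐ[k] K) :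
    ((rk (cA.map φ) : ℕ∞) : WithBot ℕ∞) ≤ ringKrullDim (A ⧸ RingHom.ker φ) := by
  have hprime : (RingHom.ker φ).IsPrime := RingHom.ker_isPrime φ
  have hdom : IsDomain (A ⧸ RingHom.ker φ) := Ideal.Quotient.isDomain _
  obtain ⟨s, g, ginj, gint⟩ := exists_integral_inj_algHom_of_fg k (A ⧸ RingHom.ker φ)
  refine le_trans ?_ (le_ringKrullDim k _ s g ginj gint)
  let φ' : (A ⧸ RingHom.ker φ) →ₐ[k] K := Ideal.Quotient.liftₐ (RingHom.ker φ) φ
    (fun a ha => ha)
  let S : Set K := Set.range (fun i : Fin s => φ' (g (MvPolynomial.X i)))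
  have h1 : coef (cA.map φ) ⊆ (AlgebraicIndependent.matroid k K).closure S := by
    rw [AlgebraicIndependent.matroid_closure_eq]
    rintro _ ⟨x, j, rfl⟩
    rw [SetLike.mem_coe, Subalgebra.mem_algebraicClosure]
    have h2 : (cA.map φ).q x j = φ' (Ideal.Quotient.mk _ (cA.q x j)) := rfl
    rw [h2]
    obtain ⟨P, hP, hP0⟩ := gint (Ideal.Quotient.mk _ (cA.q x j))
    have hmem : ∀ f : MvPolynomial (Fin s) k, φ' (g f) ∈ Algebra.adjoin k S := by
      intro f
      have h3 : (φ'.comp g) = MvPolynomial.aeval (fun i : Fin s => φ' (g (MvPolynomial.X i))) := by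
        apply MvPolynomial.algHom_ext
        intro i
        simp
      have h4 : φ' (g f) = MvPolynomial.aeval (fun i : Fin s => φ' (g (MvPolynomial.X i))) f := by
        rw [← h3]
        rfl
      rw [h4, Algebra.adjoin_range_eq_range_aeval]
      exact ⟨f, rfl⟩
    let τ : MvPolynomial (Fin s) k →+* Algebra.adjoin k S :=
      ((φ'.comp g).codRestrict (Algebra.adjoin k S) hmem).toRingHom
    have hτ : (algebraMap (Algebra.adjoin k S) K).comp τ = φ'.toRingHom.comp g.toRingHom := rfl
    apply IsIntegral.isAlgebraic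
    refine ⟨P.map τ, hP.map τ, ?_⟩
    rw [Polynomial.eval₂_map, hτ]
    have h5 := congrArg φ'.toRingHom hP0
    rw [map_zero, Polynomial.hom_eval₂] at h5
    exact h5
  have h2 : rk (cA.map φ) ≤ S.encard := by
    refine ((AlgebraicIndependent.matroid k K).eRk_mono h1).trans ?_
    rw [Matroid.eRk_closure_eq]
    exact Matroid.eRk_le_encard _ _
  have h3 : S.encard ≤ s := by
    change (Set.range _).encard ≤ _
    rw [← Set.image_univ]
    refine (Set.encard_image_le _ _).trans ?_
    simp
  have h4 : rk (cA.map φ) ≤ (s : ℕ∞) := h2.trans h3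
  exact_mod_cast h4

end Pool.Agent.H391R3
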