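import Mathlib
import Pool.Agent.H391R3.E5
import Pool.Agent.H391R3.E7

set_option autoImplicit false

open scoped TensorProduct
open CategoryTheory AlgebraicGeometry

universe u

namespace Pool.Agent.H391R3

open Pool.Agent.Helper226

variable {k : Type u} [Field k] {B : Type u} [CommRing B] [Algebra k B] {d : ℕ}

lemma specMap_asIdeal {A K : Type u} [CommRing A] [Algebra k A] [Field K] [Algebra k K]
    (φ : A →ₐ[k] K) (y : Spec (CommRingCat.of K)) :
    (Spec.map (CommRingCat.ofHom φ.toRingHom) y).asIdeal = RingHom.ker φ := by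
  have h1 : (Spec.map (CommRingCat.ofHom φ.toRingHom) y).asIdeal =
      Ideal.comap φ.toRingHom y.asIdeal := rfl
  have h2 : y.asIdeal = ⊥ := by
    have : y.asIdeal.IsPrime := y.isPrime
    exact (Ideal.eq_bot_or_top y.asIdeal).resolve_right this.ne_top
  rw [h1, h2]
  rfl

lemma clf_uc_map {b : Fin d → B} {R : Type u} [CommRing R] [Algebra k R] (φ : AR k b →ₐ[k] R) :
    clf ((uc k b).map φ) = φ := by
  apply hom_ext_uc
  rw [uc_map_clf]

/-- a prime of a chart as the kernel of a map to an algebraically closed field -/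
lemma exists_geometric_point {A : Type u} [CommRing A] [Algebra k A] (p : Ideal A) [p.IsPrime] :
    ∃ (K : Type u) (_ : Field K) (_ : Algebra k K) (_ : IsAlgClosed K) (φ : A →ₐ[k] K),
      RingHom.ker φ = p := by
  let F := FractionRing (A ⧸ p)
  let K := AlgebraicClosure F
  refine ⟨K, inferInstance, inferInstance, inferInstance,
    ((IsScalarTower.toAlgHom k F K).comp (IsScalarTower.toAlgHom k (A ⧸ p) F)).comp
      (Ideal.Quotient.mkₐ k p), ?_⟩
  ext x
  rw [RingHom.mem_ker]
  simp only [AlgHom.comp_apply, IsScalarTower.coe_toAlgHom', Ideal.Quotient.mkₐ_eq_mk]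
  constructor
  · intro h
    have h1 := (algebraMap F K).injective (h.trans (map_zero _).symm)
    have h2 := IsFractionRing.injective (A ⧸ p) F (h1.trans (map_zero _).symm)
    exact Ideal.Quotient.eq_zero_iff_mem.1 h2
  · intro h
    rw [Ideal.Quotient.eq_zero_iff_mem.2 h, map_zero, map_zero]

theorem exists_component [Algebra.FiniteType k B] (C d : ℕ)
    (hmin : ∀ d' < d, ∀ (K : Type u) [Field K] [Algebra k K] (b : Fin d' → B) (c : Chart k b K),
      rk c ≤ ((C * d' : ℕ) : ℕ∞))
    {K : Type u} [Field K] [Algebra k K] {b : Fin d → B} (c : Chart k b K)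
    (hc : ((C * d : ℕ) : ℕ∞) < rk c) :
    ∃ Z ∈ irreducibleComponents (HilbS k B d),
      (∀ (b2 : Fin d → B) (c2 : Chart k b2 k), chartι k (Idx.single b2) (zp c2) ∈ Z →
        c2.ker.radical.IsMaximal) ∧
      ((C * d : ℕ) : WithBot ℕ∞) < topologicalKrullDim Z := by
  have hd : 1 ≤ d := by
    rcases Nat.eq_zero_or_pos d with h | h
    · exfalso
      subst h
      have h1 : coef c = ∅ := by
        ext x
        simp only [Set.mem_empty_iff_false, iff_false]
        rintro ⟨_, j, _⟩
        exact j.elim0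
      unfold rk at hc
      rw [h1, Matroid.eRk_empty] at hc
      exact absurd hc (by simp)
    · exact h
  -- the point
  let y0 : Spec (CommRingCat.of K) := (⟨⊥, Ideal.isPrime_bot⟩ : PrimeSpectrum K)
  let pz : Spec (CommRingCat.of (AR k b)) := Spec.map (CommRingCat.ofHom (clf c).toRingHom) y0
  have hpz : pz.asIdeal = RingHom.ker (clf c) := specMap_asIdeal (clf c) y0
  let z : HilbS k B d := chartι k (Idx.single b) pz
  refine ⟨irreducibleComponent z, irreducibleComponent_mem_irreducibleComponents z, ?_⟩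
  obtain ⟨ζ, hζ⟩ := QuasiSober.sober (isIrreducible_irreducibleComponent (x := z))
    isClosed_irreducibleComponent
  have hζz : ζ ⤳ z := hζ.specializes mem_irreducibleComponent
  obtain ⟨p, hp⟩ : ζ ∈ Set.range (chartι k (Idx.single b)) :=
    hζz.mem_open (chartι k (Idx.single b)).isOpenEmbedding.isOpen_range ⟨pz, rfl⟩
  have hple : p.asIdeal ≤ pz.asIdeal := by
    have h1 : p ⤳ pz := by
      rw [← (chartι k (Idx.single b)).isOpenEmbedding.isInducing.specializes_iff, hp]
      exact hζz
    exact (PrimeSpectrum.le_iff_specializes _ _).2 h1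
  have hpp : p.asIdeal.IsPrime := p.isPrime
  obtain ⟨K1, _, _, _, φ, hφ⟩ := exists_geometric_point (k := k) p.asIdeal
  let c1 : Chart k b K1 := (uc k b).map φ
  have hrk : rk c ≤ rk c1 := by
    have h1 := rk_map_le (uc k b) φ (clf c) (by rw [hφ, ← hpz]; exact hple)
    rwa [uc_map_clf] at h1
  have hrk1 : ((C * d : ℕ) : ℕ∞) < rk c1 := lt_of_lt_of_le hc hrk
  refine ⟨?_, ?_⟩
  · -- no splitting
    have hns : ∀ (b3 : Fin d → B) (c3 : Chart k b3 K1), c3.ideal = c1.ideal → ∀ (g : B) (s t : K1),
        (mg c3 g).charpoly.IsRoot s → (mg c3 g).charpoly.IsRoot t → s = t := by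
      intro b3 c3 h3 g s t hs ht
      by_contra hst
      obtain ⟨d1, d2, b1', b2', c1', c2', hd1, hd2, hsum, hinf⟩ :=
        exists_split c3 (1 ⊗ₜ[k] g) s t hst hs ht
      rw [h3] at hinf
      have h4 := rk_le_add c1 c1' c2' hsum hinf
      have h5 := hmin d1 (by omega) K1 b1' c1'
      have h6 := hmin d2 (by omega) K1 b2' c2'
      have h7 : rk c1 ≤ ((C * d : ℕ) : ℕ∞) := by
        refine h4.trans ((add_le_add h5 h6).trans ?_)
        rw [← Nat.cast_add, ← mul_add, hsum]
      exact absurd hrk1 (not_lt.2 h7)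
    intro b2 c2 hx
    have hζx : ζ ⤳ chartι k (Idx.single b2) (zp c2) := hζ.specializes hx
    obtain ⟨p2, hp2⟩ : ζ ∈ Set.range (chartι k (Idx.single b2)) :=
      hζx.mem_open (chartι k (Idx.single b2)).isOpenEmbedding.isOpen_range ⟨zp c2, rfl⟩
    have hp2le : p2.asIdeal ≤ RingHom.ker (clf c2) := by
      have h1 : p2 ⤳ zp c2 := by
        rw [← (chartι k (Idx.single b2)).isOpenEmbedding.isInducing.specializes_iff, hp2]
        exact hζx
      exact (PrimeSpectrum.le_iff_specializes _ _).2 h1
    have hmor : ∀ y : Spec (CommRingCat.of K1), mor c1 y = ζ := by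
      intro y
      unfold mor
      rw [Scheme.Hom.comp_apply, ← hp]
      congr 1
      apply PrimeSpectrum.ext
      rw [specMap_asIdeal, clf_uc_map]
      exact hφ
    have h1 : HasBas ((Idx.single b2).s : Set (Fin d → B)) c1.ideal := by
      apply hasBas_of_forall k c1.ideal (L := Idx.single b) (hasBas_single ⟨c1, rfl⟩)
      intro y
      rw [← mor_eq_pt, hmor]
      exact ⟨p2, hp2⟩
    obtain ⟨c3, hc3⟩ := h1 b2 (mem_single b2)
    have hmor3 : mor c3 = mor c1 := mor_eq_of_ideal_eq c3 c1 hc3
    have hker3 : RingHom.ker (clf c3) = p2.asIdeal := by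
      let y1 : Spec (CommRingCat.of K1) := (⟨⊥, Ideal.isPrime_bot⟩ : PrimeSpectrum K1)
      have h2 : chartι k (Idx.single b2) (Spec.map (CommRingCat.ofHom (clf c3).toRingHom) y1) =
          chartι k (Idx.single b2) p2 := by
        rw [hp2, ← hmor y1, ← hmor3]
        unfold mor
        rw [Scheme.Hom.comp_apply]
      have h3 := (chartι k (Idx.single b2)).isOpenEmbedding.injective h2
      rw [← h3, specMap_asIdeal]
    have h2 := radical_isMaximal hd (uc k b2) (clf c3) (clf c2) (by rw [hker3]; exact hp2le) (by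
      intro g s t hs ht
      rw [uc_map_clf] at hs ht
      exact hns b2 c3 hc3 g s t hs ht)
    rwa [uc_map_clf] at h2
  · -- the dimension
    have hft : Algebra.FiniteType k (AR k b) := univ_finiteType (k := k) (Idx.single b)
    have h1 := rk_le_dim (uc k b) φ
    have h2 : ((C * d : ℕ) : WithBot ℕ∞) < ringKrullDim (AR k b ⧸ RingHom.ker φ) := by
      refine lt_of_lt_of_le ?_ h1
      exact_mod_cast hrk1
    refine lt_of_lt_of_le h2 ?_
    rw [← PrimeSpectrum.topologicalKrullDim_eq_ringKrullDim]
    let pt' : PrimeSpectrum (AR k b ⧸ RingHom.ker φ) → Spec (CommRingCat.of (AR k b)) :=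
      fun x => PrimeSpectrum.comap (Ideal.Quotient.mk (RingHom.ker φ)) x
    have hmem : ∀ x : PrimeSpectrum (AR k b ⧸ RingHom.ker φ),
        chartι k (Idx.single b) (pt' x) ∈ irreducibleComponent z := by
      intro x
      have hw : p ⤳ pt' x := by
        refine (PrimeSpectrum.le_iff_specializes _ _).1 ?_
        change p.asIdeal ≤ Ideal.comap (Ideal.Quotient.mk (RingHom.ker φ)) x.asIdeal
        intro a ha
        rw [Ideal.mem_comap, Ideal.Quotient.eq_zero_iff_mem.2 (by rw [hφ]; exact ha)]
        exact Ideal.zero_mem _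
      have hw2 : chartι k (Idx.single b) p ⤳ chartι k (Idx.single b) (pt' x) :=
        ((chartι k (Idx.single b)).isOpenEmbedding.isInducing.specializes_iff).2 hw
      rw [hp] at hw2
      rw [← hζ.def]
      exact hw2.mem_closure
    let f : PrimeSpectrum (AR k b ⧸ RingHom.ker φ) → irreducibleComponent z :=
      fun x => ⟨_, hmem x⟩
    have hf : Topology.IsInducing f := by
      have h3 : Topology.IsInducing (Subtype.val ∘ f) :=
        (chartι k (Idx.single b)).isOpenEmbedding.isInducing.comp
          (PrimeSpectrum.isClosedEmbedding_comap_of_surjective _ _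
            Ideal.Quotient.mk_surjective).isInducing
      exact Topology.IsInducing.subtypeVal.of_comp_iff.1 h3
    exact hf.topologicalKrullDim_le

end Pool.Agent.H391R3

namespace Pool.Agent.H391R3

open Pool.Agent.Helper226

lemma one_le_of_lt_rk {k : Type u} [Field k] {B : Type u} [CommRing B] [Algebra k B] {d : ℕ}
    {K : Type u} [Field K] [Algebra k K] {b : Fin d → B} (c : Chart k b K) {m : ℕ∞}
    (h : m < rk c) : 1 ≤ d := by
  rcases Nat.eq_zero_or_pos d with h0 | h0
  · exfalso
    subst h0
    have h1 : coef c = ∅ := by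
      ext x
      simp only [Set.mem_empty_iff_false, iff_false]
      rintro ⟨_, j, _⟩
      exact j.elim0
    unfold rk at h
    rw [h1, Matroid.eRk_empty] at h
    exact absurd h (by simp)
  · exact h0

end Pool.Agent.H391R3
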