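import Mathlib

set_option autoImplicit false
open TensorProduct PowerSeries

namespace Pool.Agent.H391R3.HW

noncomputable section

/-- Formal power series over the rationals. -/
abbrev V : Type := PowerSeries ℚ

/-- The exponents of `f` lie in `A`. -/
def Sup (A : ℕ → Prop) (f : V) : Prop := ∀ n, ¬ A n → coeff n f = 0

theorem Sup.add {A : ℕ → Prop} {f g : V} (hf : Sup A f) (hg : Sup A g) : Sup A (f + g) := by
  intro n hn; rw [map_add, hf n hn, hg n hn, add_zero]

theorem Sup.zero {A : ℕ → Prop} : Sup A (0 : V) := by intro n _; simp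

theorem Sup.mul {A B C : ℕ → Prop} (h : ∀ i j, A i → B j → C (i + j)) {f g : V}
    (hf : Sup A f) (hg : Sup B g) : Sup C (f * g) := by
  intro n hn
  rw [coeff_mul]
  apply Finset.sum_eq_zero
  intro p hp
  replace hp := Finset.HasAntidiagonal.mem_antidiagonal.1 hp
  by_cases h1 : A p.1
  · by_cases h2 : B p.2
    · exact absurd (hp ▸ h _ _ h1 h2) hn
    · rw [hg _ h2, mul_zero]
  · rw [hf _ h1, zero_mul]

theorem Sup.mono {A B : ℕ → Prop} (h : ∀ i, A i → B i) {f : V} (hf : Sup A f) : Sup B f :=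
  fun n hn => hf n (fun hA => hn (h n hA))

theorem Sup.X_pow (A : ℕ → Prop) (m : ℕ) (h : A m) : Sup A ((X : V) ^ m) := by
  intro n hn
  rw [coeff_X_pow, if_neg]
  rintro rfl
  exact hn h

theorem Sup.C_mul {A : ℕ → Prop} (a : ℚ) {f : V} (hf : Sup A f) : Sup A (a • f) := by
  intro n hn
  rw [map_smul, hf n hn, smul_zero]

/-- The numerical semigroup `{0, 15, 18-24, 27-30, 33, 34, ...}`. -/
def G (n : ℕ) : Prop := n = 0 ∨ n = 15 ∨ (18 ≤ n ∧ n ≠ 25 ∧ n ≠ 26 ∧ n ≠ 31 ∧ n ≠ 32)

/-- The exponents of the ideal. -/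
def E (n : ℕ) : Prop := n = 0 ∨ n = 3 ∨ n = 5 ∨ n = 8 ∨ n = 15 ∨ 18 ≤ n

theorem G_add (i j : ℕ) (hi : G i) (hj : G j) : G (i + j) := by unfold G at *; omega

theorem E_add (i j : ℕ) (hi : G i) (hj : E j) : E (i + j) := by unfold G E at *; omega

/-- The ring. -/
def R : Subalgebra ℚ V where
  carrier := {f | Sup G f}
  mul_mem' := fun {a b} ha hb => Sup.mul G_add ha hb
  add_mem' := fun {a b} ha hb => Sup.add ha hb
  algebraMap_mem' := by
    intro r n hn
    rw [PowerSeries.algebraMap_apply, Algebra.algebraMap_self_apply, coeff_C, if_neg]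
    rintro rfl
    exact hn (Or.inl rfl)

theorem mem_R {f : V} : f ∈ R ↔ Sup G f := Iff.rfl

/-- The module. -/
def M : Submodule R V where
  carrier := {f | Sup E f}
  add_mem' := fun {a b} ha hb => Sup.add ha hb
  zero_mem' := Sup.zero
  smul_mem' := by
    intro c x hx
    exact Sup.mul E_add c.2 hx

theorem mem_M {f : V} : f ∈ M ↔ Sup E f := Iff.rfl

theorem smul_def (r : R) (f : V) : r • f = (r : V) * f := rfl

theorem inv_mem {f : V} (hf : Sup G f) (h0 : constantCoeff f ≠ 0) : Sup G f⁻¹ := by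
  intro n
  induction n using Nat.strong_induction_on with
  | _ n ih =>
    intro hn
    rw [coeff_inv, if_neg (by rintro rfl; exact hn (Or.inl rfl))]
    rw [Finset.sum_eq_zero, mul_zero]
    intro p hp
    replace hp := Finset.HasAntidiagonal.mem_antidiagonal.1 hp
    split_ifs with h
    · by_cases h1 : G p.1
      · by_cases h2 : G p.2
        · exact absurd (hp ▸ G_add _ _ h1 h2) hn
        · rw [ih _ h h2, mul_zero]
      · rw [hf _ h1, zero_mul]
    · rfl

theorem isUnit_of {f : R} (h0 : constantCoeff (f : V) ≠ 0) : IsUnit f := by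
  refine IsUnit.of_mul_eq_one (⟨(f : V)⁻¹, inv_mem f.2 h0⟩ : R) ?_
  apply Subtype.ext
  exact PowerSeries.mul_inv_cancel _ h0

instance : IsLocalRing R := by
  apply IsLocalRing.of_isUnit_or_isUnit_one_sub_self
  intro a
  by_cases h : constantCoeff (a : V) = 0
  · right
    apply isUnit_of
    simp [h]
  · left; exact isUnit_of h

/-- Every nonzero element of the ring divides all series of large order. -/
theorem exists_div {f : V} (hf : f ≠ 0) :
    ∃ N : ℕ, ∀ g : V, (∀ n < N, coeff n g = 0) → ∃ h : R, g = f * (h : V) := by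
  have hex : ∃ m, coeff m f ≠ 0 := by
    by_contra hcon
    push Not at hcon
    exact hf (PowerSeries.ext (by simpa using hcon))
  obtain ⟨m, hm1, hm2⟩ : ∃ m, coeff m f ≠ 0 ∧ ∀ n < m, coeff n f = 0 := by
    classical
    refine ⟨Nat.find hex, Nat.find_spec hex, fun n hn => ?_⟩
    have := Nat.find_min hex hn
    simpa using this
  obtain ⟨f', hf'⟩ := (X_pow_dvd_iff (n := m)).2 hm2
  have h0 : constantCoeff f' ≠ 0 := by
    intro h
    apply hm1
    have h2 := coeff_X_pow_mul f' m 0
    rw [zero_add] at h2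
    rw [hf', h2]
    simpa using h
  refine ⟨m + 33, fun g hg => ?_⟩
  obtain ⟨g', hg'⟩ := (X_pow_dvd_iff (n := m + 33)).2 hg
  have hmem : Sup G (X ^ 33 * (g' * f'⁻¹)) := by
    intro n hn
    rw [coeff_X_pow_mul', if_neg]
    intro h
    apply hn
    unfold G
    omega
  refine ⟨⟨X ^ 33 * (g' * f'⁻¹), hmem⟩, ?_⟩
  change g = f * (X ^ 33 * (g' * f'⁻¹))
  have h1 := PowerSeries.mul_inv_cancel f' h0
  calc g = X ^ m * X ^ 33 * g' * (f' * f'⁻¹) := by rw [h1, hg', pow_add, mul_one]
    _ = (X ^ m * f') * (X ^ 33 * (g' * f'⁻¹)) := by ring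
    _ = _ := by rw [← hf']

instance : IsNoetherianRing R := by
  rw [isNoetherianRing_iff_ideal_fg]
  intro A
  by_cases hA : A = ⊥
  · rw [hA]; exact Submodule.fg_bot
  obtain ⟨f, hfA, hf0⟩ := Submodule.exists_mem_ne_zero_of_ne_bot hA
  have hf0' : (f : V) ≠ 0 := fun h => hf0 (Subtype.ext h)
  obtain ⟨N, hN⟩ := exists_div hf0'
  let φ : R →ₗ[ℚ] (Fin N → ℚ) :=
    { toFun := fun r i => coeff (i : ℕ) (r : V)
      map_add' := by intro x y; funext i; simp
      map_smul' := by intro c x; funext i; simp }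
  have hfg : ((A.restrictScalars ℚ).map φ).FG := IsNoetherian.noetherian _
  obtain ⟨T, hT⟩ := hfg
  -- choose preimages
  have hpre : ∀ t ∈ T, ∃ a : R, a ∈ A ∧ φ a = t := by
    intro t ht
    have : t ∈ ((A.restrictScalars ℚ).map φ) := hT ▸ Submodule.subset_span ht
    obtain ⟨a, ha, hat⟩ := this
    exact ⟨a, ha, hat⟩
  choose! pre hpreA hpreφ using hpre
  classical
  refine ⟨insert f (T.image pre), le_antisymm ?_ ?_⟩
  · rw [Submodule.span_le]
    intro x hx
    rw [Finset.coe_insert, Set.mem_insert_iff] at hx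
    rcases hx with rfl | hx
    · exact hfA
    · rw [Finset.coe_image] at hx
      obtain ⟨t, ht, rfl⟩ := hx
      exact hpreA t ht
  · intro a ha
    have h1 : φ a ∈ (A.restrictScalars ℚ).map φ := ⟨a, ha, rfl⟩
    have h2 : (A.restrictScalars ℚ).map φ = (Submodule.span ℚ (pre '' (T : Set (Fin N → ℚ)))).map φ := by
      rw [Submodule.map_span, ← hT]
      congr 1
      ext t
      constructor
      · intro ht; exact ⟨pre t, ⟨t, ht, rfl⟩, hpreφ t ht⟩
      · rintro ⟨_, ⟨t', ht', rfl⟩, rfl⟩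
        rw [hpreφ t' ht']; exact ht'
    rw [h2] at h1
    obtain ⟨s, hs, hsa⟩ := h1
    have hs' : s ∈ Submodule.span R (pre '' (T : Set (Fin N → ℚ))) :=
      Submodule.span_le_restrictScalars ℚ R _ hs
    obtain ⟨h, hh⟩ := hN ((a : V) - (s : V)) (by
      intro n hn
      have := congrFun hsa ⟨n, hn⟩
      have h3 : coeff n (s : V) = coeff n (a : V) := this
      rw [map_sub, h3, sub_self])
    have h4 : a = f * h + s := by
      apply Subtype.ext
      change (a : V) = (f : V) * (h : V) + (s : V)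
      rw [← hh]; ring
    rw [h4]
    apply Submodule.add_mem
    · rw [mul_comm]
      exact Submodule.smul_mem _ _ (Submodule.subset_span (by simp))
    · refine Submodule.span_mono ?_ hs'
      rw [Finset.coe_insert, Finset.coe_image]
      exact Set.subset_insert _ _

theorem coeff_pow_of_lt {f : V} (h0 : constantCoeff f = 0) (N n : ℕ) (hn : n < N) :
    coeff n (f ^ N) = 0 := by
  have h1 : X ∣ f := X_dvd_iff.2 h0
  have h2 : X ^ N ∣ f ^ N := pow_dvd_pow_of_dvd h1 N
  exact X_pow_dvd_iff.1 h2 n hn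

theorem G15 : G 15 := Or.inr (Or.inl rfl)

theorem not_isField : ¬ IsField R := by
  intro h
  let x : R := ⟨X ^ 15, Sup.X_pow G 15 G15⟩
  have hx : x ≠ 0 := by
    intro hx
    have : (X ^ 15 : V) = 0 := congrArg Subtype.val hx
    exact pow_ne_zero 15 X_ne_zero this
  obtain ⟨y, hy⟩ := h.mul_inv_cancel hx
  have h2 : (X ^ 15 : V) * (y : V) = 1 := congrArg Subtype.val hy
  have h3 := congrArg (coeff 0) h2
  rw [coeff_X_pow_mul'] at h3
  simp at h3

open Ring in
theorem dim_one : ringKrullDim R = 1 := by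
  refine eq_of_le_of_not_lt (krullDimLE_iff (n := 1).mp ?_) fun h ↦ ?_
  · refine krullDimLE_one_iff_of_isPrime_bot.mpr fun P hP hP' ↦ ?_
    obtain ⟨f, hfP, hf0⟩ := Submodule.exists_mem_ne_zero_of_ne_bot hP
    have hf0' : (f : V) ≠ 0 := fun h => hf0 (Subtype.ext h)
    obtain ⟨N, hN⟩ := exists_div hf0'
    have hmax : IsLocalRing.maximalIdeal R ≤ P := by
      intro a ha
      have h0 : constantCoeff (a : V) = 0 := by
        by_contra hcon
        exact (IsLocalRing.mem_maximalIdeal a).1 ha (isUnit_of hcon)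
      obtain ⟨h, hh⟩ := hN ((a : V) ^ N) (fun n hn => coeff_pow_of_lt h0 N n hn)
      have h4 : a ^ N = f * h := by
        apply Subtype.ext
        change (a : V) ^ N = (f : V) * (h : V)
        exact hh
      apply hP'.mem_of_pow_mem N
      rw [h4]
      exact P.mul_mem_right _ hfP
    have := (IsLocalRing.maximalIdeal.isMaximal R).eq_of_le hP'.ne_top hmax
    rw [← this]
    exact IsLocalRing.maximalIdeal.isMaximal R
  · have : KrullDimLE 0 R := krullDimLE_iff.mpr (ENat.WithBot.lt_add_one_iff.mp h)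
    exact not_isField KrullDimLE.isField_of_isDomain

end

end Pool.Agent.H391R3.HW
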