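import Pool.Agent.H391R3.HW1

set_option autoImplicit false
open TensorProduct PowerSeries

namespace Pool.Agent.H391R3.HW

noncomputable section

/-- Multiplication by `X ^ d` from the module to the ring. -/
def mulMap (d : ℕ) (hd : ∀ i j, i = d → E j → G (i + j)) : M →ₗ[R] R where
  toFun m := ⟨X ^ d * (m : V), Sup.mul hd (Sup.X_pow (fun i => i = d) d rfl) m.2⟩
  map_add' := by
    intro x y
    apply Subtype.ext
    change X ^ d * ((x : V) + (y : V)) = X ^ d * (x : V) + X ^ d * (y : V)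
    ring
  map_smul' := by
    intro r x
    apply Subtype.ext
    change X ^ d * ((r : V) * (x : V)) = (r : V) * (X ^ d * (x : V))
    ring

/-- First functional. -/
def α : Module.Dual R M := mulMap 15 (by intro i j hi hj; unfold E G at *; omega)

/-- Second functional. -/
def β : Module.Dual R M := mulMap 19 (by intro i j hi hj; unfold E G at *; omega)

theorem α_apply (m : M) : ((α m : R) : V) = X ^ 15 * (m : V) := rfl
theorem β_apply (m : M) : ((β m : R) : V) = X ^ 19 * (m : V) := rfl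

theorem α_inj : Function.Injective α := by
  intro x y h
  have h1 : X ^ 15 * (x : V) = X ^ 15 * (y : V) := congrArg Subtype.val h
  exact Subtype.ext (mul_left_cancel₀ (pow_ne_zero 15 X_ne_zero) h1)

instance : IsNoetherian R M := isNoetherian_of_injective α α_inj

instance : Module.Finite R M := inferInstance

/-- The element `X ^ d` of the module. -/
def u (d : ℕ) (h : E d) : M := ⟨X ^ d, Sup.X_pow E d h⟩

theorem E0 : E 0 := by unfold E; omega
theorem E3 : E 3 := by unfold E; omega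
theorem E5 : E 5 := by unfold E; omega
theorem E8 : E 8 := by unfold E; omega

theorem u_val (d : ℕ) (h : E d) : ((u d h : M) : V) = X ^ d := rfl

theorem dual_apply (φ : Module.Dual R M) (m : M) :
    ((φ m : R) : V) = (m : V) * ((φ (u 0 E0) : R) : V) := by
  have h33 : Sup G ((X : V) ^ 33) := Sup.X_pow G 33 (by unfold G; omega)
  have hm : Sup G ((X : V) ^ 33 * (m : V)) :=
    Sup.mul (A := fun i => i = 33) (B := E) (by intro i j hi hj; unfold E G at *; omega)
      (Sup.X_pow (fun i => i = 33) 33 rfl) m.2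
  have h1 : (⟨X ^ 33 * (m : V), hm⟩ : R) • (u 0 E0) = (⟨X ^ 33, h33⟩ : R) • m := by
    apply Subtype.ext
    change X ^ 33 * (m : V) * X ^ 0 = X ^ 33 * (m : V)
    ring
  have h2 := congrArg φ h1
  rw [map_smul, map_smul] at h2
  have h3 : X ^ 33 * (m : V) * ((φ (u 0 E0) : R) : V) = X ^ 33 * ((φ m : R) : V) :=
    congrArg Subtype.val h2
  rw [mul_assoc] at h3
  exact (mul_left_cancel₀ (pow_ne_zero 33 X_ne_zero) h3).symm

/-- Exponents of the dual. -/
def J (n : ℕ) : Prop := n = 15 ∨ n = 19 ∨ n = 30 ∨ 33 ≤ n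

theorem dual_sup (φ : Module.Dual R M) : Sup J ((φ (u 0 E0) : R) : V) := by
  intro n hn
  by_contra hcon
  apply hn
  have key : ∀ d (hd : E d), G (n + d) := by
    intro d hd
    by_contra hG
    have h1 := (φ (u d hd)).2 (n + d) hG
    rw [dual_apply φ (u d hd), u_val, coeff_X_pow_mul] at h1
    exact hcon h1
  have h0 := key 0 E0
  have h3 := key 3 E3
  have h5 := key 5 E5
  have h8 := key 8 E8
  unfold G at h0 h3 h5 h8
  unfold J
  omega

open Classical in
/-- The part of `f` with exponents in `P`, divided by `X ^ d`. -/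
def pick (P : ℕ → Prop) (d : ℕ) (f : V) : V :=
  PowerSeries.mk fun n => if P (n + d) then coeff (n + d) f else 0

open Classical in
theorem coeff_pick (P : ℕ → Prop) (d : ℕ) (f : V) (hP : ∀ n, P n → d ≤ n) (n : ℕ) :
    coeff n (X ^ d * pick P d f) = if P n then coeff n f else 0 := by
  rw [coeff_X_pow_mul']
  by_cases h : d ≤ n
  · rw [if_pos h, pick, coeff_mk, Nat.sub_add_cancel h]
  · rw [if_neg h, if_neg (fun h' => h (hP n h'))]

theorem sup_pick (P A : ℕ → Prop) (d : ℕ) (f : V) (h : ∀ n, P (n + d) → A n) :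
    Sup A (pick P d f) := by
  intro n hn
  rw [pick, coeff_mk, if_neg (fun h' => hn (h n h'))]

theorem dual_gen (φ : Module.Dual R M) : ∃ r s : R, φ = r • α + s • β := by
  set c : V := ((φ (u 0 E0) : R) : V) with hc
  have hJ : Sup J c := dual_sup φ
  let Q19 : ℕ → Prop := fun n => n = 19 ∨ n = 40 ∨ n = 41 ∨ n = 46 ∨ n = 47
  let Q15 : ℕ → Prop := fun n => J n ∧ ¬ Q19 n
  have hs : Sup G (pick Q19 19 c) := sup_pick _ _ _ _ (by
    intro n h; simp only [Q19] at h; unfold G; omega)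
  have hr : Sup G (pick Q15 15 c) := sup_pick _ _ _ _ (by
    intro n h; simp only [Q15, Q19, J] at h; unfold G; omega)
  have hdec : c = X ^ 15 * pick Q15 15 c + X ^ 19 * pick Q19 19 c := by
    ext n
    rw [map_add, coeff_pick _ _ _ (by intro n h; simp only [Q15, Q19, J] at h; omega),
      coeff_pick _ _ _ (by intro n h; simp only [Q19] at h; omega)]
    by_cases h1 : Q19 n
    · rw [if_pos h1, if_neg (fun h => h.2 h1), zero_add]
    · rw [if_neg h1, add_zero]
      by_cases h2 : J n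
      · rw [if_pos ⟨h2, h1⟩]
      · rw [if_neg (fun h => h2 h.1), hJ n h2]
  refine ⟨⟨_, hr⟩, ⟨_, hs⟩, ?_⟩
  apply LinearMap.ext
  intro m
  apply Subtype.ext
  rw [dual_apply φ m, ← hc]
  change (m : V) * c = pick Q15 15 c * (X ^ 15 * (m : V)) + pick Q19 19 c * (X ^ 19 * (m : V))
  calc (m : V) * c = (m : V) * (X ^ 15 * pick Q15 15 c + X ^ 19 * pick Q19 19 c) := by rw [← hdec]
    _ = _ := by ring

/-- Exponents `n` of the ring with `n + 4` an exponent of the ring. -/
def L (n : ℕ) : Prop := G n ∧ G (n + 4)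

theorem slide (l : V) (hl : Sup L l) :
    ∃ l0 l4 : R, (l0 : V) = l ∧ (l4 : V) = X ^ 4 * l ∧
      ∀ v : M, (l0 • v) ⊗ₜ[R] β = (l4 • v) ⊗ₜ[R] α := by
  have h0 : Sup G l := hl.mono (fun i h => h.1)
  have h4 : Sup G (X ^ 4 * l) :=
    Sup.mul (A := fun i => i = 4) (B := L) (by
      intro i j hi hj; rw [hi, add_comm]; exact hj.2)
      (Sup.X_pow (fun i => i = 4) 4 rfl) hl
  refine ⟨⟨l, h0⟩, ⟨X ^ 4 * l, h4⟩, rfl, rfl, fun v => ?_⟩
  have h : (⟨l, h0⟩ : R) • β = (⟨X ^ 4 * l, h4⟩ : R) • α := by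
    apply LinearMap.ext
    intro m
    apply Subtype.ext
    change l * (X ^ 19 * (m : V)) = X ^ 4 * l * (X ^ 15 * (m : V))
    ring
  rw [smul_tmul, h, ← smul_tmul]

theorem two_term (x : M ⊗[R] Module.Dual R M) :
    ∃ m1 m2 : M, x = m1 ⊗ₜ[R] α + m2 ⊗ₜ[R] β := by
  induction x using TensorProduct.induction_on with
  | zero => exact ⟨0, 0, by simp⟩
  | tmul m φ =>
    obtain ⟨r, s, h⟩ := dual_gen φ
    refine ⟨r • m, s • m, ?_⟩
    rw [h, tmul_add, smul_tmul, smul_tmul]
  | add x y hx hy =>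
    obtain ⟨a1, a2, ha⟩ := hx
    obtain ⟨b1, b2, hb⟩ := hy
    refine ⟨a1 + b1, a2 + b2, ?_⟩
    rw [ha, hb, add_tmul, add_tmul]
    abel

theorem inj_aux (m1 m2 : M) (h : (m1 : V) = - (X ^ 4 * (m2 : V))) :
    m1 ⊗ₜ[R] α + m2 ⊗ₜ[R] β = 0 := by
  -- support of m2
  have hY : Sup (fun n => n = 15 ∨ 18 ≤ n) (m2 : V) := by
    intro n hn
    by_contra hcon
    apply hn
    have h1 : E n := by
      by_contra hE; exact hcon (m2.2 n hE)
    have h2 : E (n + 4) := by
      by_contra hE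
      have h3 := m1.2 (n + 4) hE
      rw [h, map_neg, coeff_X_pow_mul] at h3
      exact hcon (neg_eq_zero.1 h3)
    unfold E at h1 h2
    omega
  let P1 : ℕ → Prop := fun n => n = 21 ∨ n = 22 ∨ n = 26 ∨ n = 27 ∨ n = 32
  let P2 : ℕ → Prop := fun n => n = 25 ∨ n = 28
  let P3 : ℕ → Prop := fun n => n = 31
  let P0 : ℕ → Prop := fun n => (n = 15 ∨ 18 ≤ n) ∧ ¬ P1 n ∧ ¬ P2 n ∧ ¬ P3 n
  have hs0 : Sup L (pick P0 0 (m2 : V)) := sup_pick _ _ _ _ (by
    intro n hn; simp only [P0, P1, P2, P3] at hn; unfold L G; omega)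
  have hs1 : Sup L (pick P1 3 (m2 : V)) := sup_pick _ _ _ _ (by
    intro n hn; simp only [P1] at hn; unfold L G; omega)
  have hs2 : Sup L (pick P2 5 (m2 : V)) := sup_pick _ _ _ _ (by
    intro n hn; simp only [P2] at hn; unfold L G; omega)
  have hs3 : Sup L (pick P3 8 (m2 : V)) := sup_pick _ _ _ _ (by
    intro n hn; simp only [P3] at hn; unfold L G; omega)
  have hdec : (m2 : V) = X ^ 0 * pick P0 0 (m2 : V) + X ^ 3 * pick P1 3 (m2 : V) +
      X ^ 5 * pick P2 5 (m2 : V) + X ^ 8 * pick P3 8 (m2 : V) := by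
    ext n
    rw [map_add, map_add, map_add, coeff_pick _ _ _ (by intro n h; omega),
      coeff_pick _ _ _ (by intro n h; simp only [P1] at h; omega),
      coeff_pick _ _ _ (by intro n h; simp only [P2] at h; omega),
      coeff_pick _ _ _ (by intro n h; simp only [P3] at h; omega)]
    by_cases h1 : P1 n
    · have h2 : ¬ P2 n := by simp only [P1, P2] at *; omega
      have h3 : ¬ P3 n := by simp only [P1, P3] at *; omega
      have h0 : ¬ P0 n := fun h => h.2.1 h1
      rw [if_pos h1, if_neg h2, if_neg h3, if_neg h0]; ring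
    · by_cases h2 : P2 n
      · have h3 : ¬ P3 n := by simp only [P2, P3] at *; omega
        have h0 : ¬ P0 n := fun h => h.2.2.1 h2
        rw [if_neg h1, if_pos h2, if_neg h3, if_neg h0]; ring
      · by_cases h3 : P3 n
        · have h0 : ¬ P0 n := fun h => h.2.2.2 h3
          rw [if_neg h1, if_neg h2, if_pos h3, if_neg h0]; ring
        · by_cases hy : n = 15 ∨ 18 ≤ n
          · rw [if_neg h1, if_neg h2, if_neg h3, if_pos ⟨hy, h1, h2, h3⟩]; ring
          · rw [if_neg h1, if_neg h2, if_neg h3, if_neg (fun h => hy h.1), hY n hy]; ring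
  obtain ⟨a0, b0, ha0, hb0, e0⟩ := slide _ hs0
  obtain ⟨a1, b1, ha1, hb1, e1⟩ := slide _ hs1
  obtain ⟨a2, b2, ha2, hb2, e2⟩ := slide _ hs2
  obtain ⟨a3, b3, ha3, hb3, e3⟩ := slide _ hs3
  have hm2 : m2 = a0 • u 0 E0 + a1 • u 3 E3 + a2 • u 5 E5 + a3 • u 8 E8 := by
    apply Subtype.ext
    change (m2 : V) = (a0 : V) * X ^ 0 + (a1 : V) * X ^ 3 + (a2 : V) * X ^ 5 + (a3 : V) * X ^ 8
    rw [ha0, ha1, ha2, ha3]
    conv_lhs => rw [hdec]
    ring
  have hm1 : m1 + (b0 • u 0 E0 + b1 • u 3 E3 + b2 • u 5 E5 + b3 • u 8 E8) = 0 := by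
    apply Subtype.ext
    change (m1 : V) + ((b0 : V) * X ^ 0 + (b1 : V) * X ^ 3 + (b2 : V) * X ^ 5 +
      (b3 : V) * X ^ 8) = 0
    rw [hb0, hb1, hb2, hb3, h]
    have h9 : (m2 : V) - (X ^ 0 * pick P0 0 (m2 : V) + X ^ 3 * pick P1 3 (m2 : V) +
      X ^ 5 * pick P2 5 (m2 : V) + X ^ 8 * pick P3 8 (m2 : V)) = 0 := sub_eq_zero.2 hdec
    linear_combination (-X ^ 4) * h9
  have hw : m2 ⊗ₜ[R] β = (b0 • u 0 E0 + b1 • u 3 E3 + b2 • u 5 E5 + b3 • u 8 E8) ⊗ₜ[R] α := by
    rw [hm2]
    simp only [add_tmul]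
    rw [e0, e1, e2, e3]
  rw [hw, ← add_tmul, hm1, zero_tmul]

theorem torsion_bot : Submodule.torsion R (M ⊗[R] Module.Dual R M) = ⊥ := by
  rw [eq_bot_iff]
  intro x hx
  rw [Submodule.mem_torsion_iff] at hx
  obtain ⟨a, ha⟩ := hx
  obtain ⟨m1, m2, rfl⟩ := two_term x
  have h1 := congrArg (contractRight R M) ha
  have ha' : (a : R) • (m1 ⊗ₜ[R] α + m2 ⊗ₜ[R] β) = 0 := ha
  have h2 := congrArg (contractRight R M) ha'
  rw [map_smul, map_add, contractRight_apply, contractRight_apply, map_zero, smul_eq_mul,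
    mul_eq_zero] at h2
  have h3 : (α m1 : R) + β m2 = 0 := by
    rcases h2 with h2 | h2
    · exact absurd h2 (nonZeroDivisors.ne_zero a.2)
    · exact h2
  have h4 : X ^ 15 * (m1 : V) + X ^ 19 * (m2 : V) = 0 := congrArg Subtype.val h3
  have h5 : X ^ 15 * (m1 : V) = X ^ 15 * (-(X ^ 4 * (m2 : V))) := by
    linear_combination h4
  have h6 := mul_left_cancel₀ (pow_ne_zero 15 X_ne_zero) h5
  rw [Submodule.mem_bot]
  exact inj_aux m1 m2 h6

theorem not_free : ¬ Module.Free R (Module.Dual R M) := by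
  intro hfree
  let b := Module.Free.chooseBasis R (Module.Dual R M)
  have hval : ∀ φ : Module.Dual R M, φ (u 0 E0) = 0 → φ = 0 := by
    intro φ h
    apply LinearMap.ext
    intro m
    apply Subtype.ext
    rw [dual_apply φ m, h]
    simp
  have hcomm : ∀ φ ψ : Module.Dual R M, (ψ (u 0 E0)) • φ = (φ (u 0 E0)) • ψ := by
    intro φ ψ
    apply LinearMap.ext
    intro m
    apply Subtype.ext
    change ((ψ (u 0 E0) : R) : V) * ((φ m : R) : V) = ((φ (u 0 E0) : R) : V) * ((ψ m : R) : V)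
    rw [dual_apply φ m, dual_apply ψ m]
    ring
  have hsub : ∀ i j : Module.Free.ChooseBasisIndex R (Module.Dual R M), i = j := by
    intro i j
    by_contra hij
    have h1 := congrArg (fun y => b.repr y i) (hcomm (b i) (b j))
    simp only [map_smul, Module.Basis.repr_self, Finsupp.smul_apply, Finsupp.single_eq_same,
      smul_eq_mul, mul_one] at h1
    rw [Finsupp.single_eq_of_ne (by tauto)] at h1
    rw [mul_zero] at h1
    exact b.ne_zero j (hval _ h1)
  have hne : Nonempty (Module.Free.ChooseBasisIndex R (Module.Dual R M)) := by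
    by_contra hemp
    rw [not_nonempty_iff] at hemp
    have h0 : α = 0 := b.repr.injective (Subsingleton.elim _ _)
    have h1 : (α (u 0 E0) : R) = 0 := by rw [h0]; rfl
    have h2 : X ^ 15 * (X : V) ^ 0 = 0 := congrArg Subtype.val h1
    rw [pow_zero, mul_one] at h2
    exact pow_ne_zero 15 X_ne_zero h2
  obtain ⟨i⟩ := hne
  have hrepr : ∀ φ : Module.Dual R M, φ = (b.repr φ i) • b i := by
    intro φ
    apply b.repr.injective
    ext j
    rw [hsub j i]
    simp
  set r : R := b.repr α i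
  set s : R := b.repr β i
  set c : R := (b i) (u 0 E0)
  have hr : (r : V) * (c : V) = X ^ 15 := by
    have h := congrArg (fun φ : Module.Dual R M => ((φ (u 0 E0) : R) : V)) (hrepr α)
    have h' : X ^ 15 * (X : V) ^ 0 = (r : V) * (c : V) := h
    rw [← h']; ring
  have hs : (s : V) * (c : V) = X ^ 19 := by
    have h := congrArg (fun φ : Module.Dual R M => ((φ (u 0 E0) : R) : V)) (hrepr β)
    have h' : X ^ 19 * (X : V) ^ 0 = (s : V) * (c : V) := h
    rw [← h']; ring
  have hc0 : (c : V) ≠ 0 := by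
    intro h
    rw [h, mul_zero] at hr
    exact pow_ne_zero 15 X_ne_zero hr.symm
  have hsr : (s : V) = X ^ 4 * (r : V) := by
    apply mul_right_cancel₀ hc0
    rw [hs, mul_assoc, hr]; ring
  have hr0 : coeff 0 (r : V) = 0 := by
    have h1 := s.2 4 (by unfold G; omega)
    rw [hsr] at h1
    have h2 := coeff_X_pow_mul (r : V) 4 0
    rw [zero_add] at h2
    rw [← h2]; exact h1
  have hJ : Sup J (c : V) := dual_sup (b i)
  have h15 : coeff 15 ((r : V) * (c : V)) = 0 := by
    rw [coeff_mul]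
    apply Finset.sum_eq_zero
    intro p hp
    replace hp := Finset.HasAntidiagonal.mem_antidiagonal.1 hp
    by_cases h : p.1 = 0
    · rw [h, hr0, zero_mul]
    · rw [hJ p.2 (by unfold J; omega), mul_zero]
  rw [hr, coeff_X_pow] at h15
  simp at h15

end

end Pool.Agent.H391R3.HW
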